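import Pool.Agent.SL3.Defs

/-!
# Galois representations into `PGL_3(k)`: odd, nearly ordinary, unramified

The torus-valued representation `x^∨ ∘ ω` with values in `PGL_3(k)`: it is continuous, unramified
outside `p` and nearly ordinary of type `x`, and it is odd for `x = (5,2,0)`.
-/

open scoped Pointwise

namespace Pool.Agent.SL3

section Trace

open Module.Basis in
theorem trace_eq_add {R V : Type*} [CommRing R] [AddCommGroup V]
    [Module R V] [Module.Finite R V] (W : Submodule R V) [Module.Free R W] [Module.Finite R W]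
    [Module.Free R (V ⧸ W)] (e : V →ₗ[R] V) (he : W ≤ W.comap e) :
    LinearMap.trace R V e
      = LinearMap.trace R W (e.restrict he) + LinearMap.trace R (V ⧸ W) (W.mapQ W e he) := by
  classical
  let m := Module.Free.ChooseBasisIndex R W
  let bW : Module.Basis m R W := Module.Free.chooseBasis R W
  let n := Module.Free.ChooseBasisIndex R (V ⧸ W)
  let bQ : Module.Basis n R (V ⧸ W) := Module.Free.chooseBasis R (V ⧸ W)
  let b := sumQuot bW bQ
  let A : Matrix m m R := LinearMap.toMatrix bW bW (e.restrict he)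
  let B : Matrix m n R := Matrix.of fun i l ↦
    ((sumQuot bW bQ).repr (e ((sumQuot bW bQ) (Sum.inr l)))) (Sum.inl i)
  let D : Matrix n n R := LinearMap.toMatrix bQ bQ (W.mapQ W e he)
  suffices LinearMap.toMatrix b b e = Matrix.fromBlocks A B 0 D by
    rw [LinearMap.trace_eq_matrix_trace R b, this, LinearMap.trace_eq_matrix_trace R bW,
      LinearMap.trace_eq_matrix_trace R bQ]
    simp [Matrix.trace, Fintype.sum_sum_type, A, D]
  ext u v
  cases u with
  | inl i =>
    cases v with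
    | inl k =>
      simp only [b, sumQuot_inl, Matrix.fromBlocks_apply₁₁, A, LinearMap.toMatrix_apply]
      apply sumQuot_repr_inl_of_mem
    | inr l => simp [b, LinearMap.toMatrix_apply, Matrix.fromBlocks_apply₁₂, B]
  | inr j =>
    cases v with
    | inl k =>
      suffices W.mkQ (e (bW k)) = 0 by simp [LinearMap.toMatrix_apply, b, this]
      rw [← LinearMap.mem_ker, Submodule.ker_mkQ]
      exact he (Submodule.coe_mem (bW k))
    | inr l =>
      simp only [LinearMap.toMatrix_apply, sumQuot_repr_inr,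
        Matrix.fromBlocks_apply₂₂, b, D]
      rw [← sumQuot_inr bW bQ l, W.mapQ_apply]
      simp

variable {k : Type} [Field k]

theorem trace_conjMat (g : GL (Fin 3) k) :
    LinearMap.trace k _ (conjMat g) = g.1.trace * (g⁻¹).1.trace := by
  classical
  rw [LinearMap.trace_eq_matrix_trace k (Matrix.stdBasis k (Fin 3) (Fin 3)), Matrix.trace,
    Matrix.trace, Matrix.trace, Fintype.sum_prod_type, Finset.sum_mul_sum]
  refine Finset.sum_congr rfl (fun i _ => Finset.sum_congr rfl (fun j _ => ?_))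
  rw [Matrix.diag_apply, LinearMap.toMatrix_apply, Matrix.stdBasis_eq_single, conjMat_apply]
  simp only [Matrix.diag_apply]
  have : (Matrix.stdBasis k (Fin 3) (Fin 3)).repr (g.1 * Matrix.single i j 1 * (g⁻¹).1) (i, j)
      = (g.1 * Matrix.single i j 1 * (g⁻¹).1 : Matrix (Fin 3) (Fin 3) k) i j := by
    simp [Matrix.stdBasis]
  rw [this, Matrix.mul_apply, Finset.sum_eq_single j]
  · rw [Matrix.mul_single_apply_same, mul_one]
  · intro b _ hb
    rw [Matrix.mul_single_apply_of_ne _ _ _ _ _ hb, zero_mul]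
  · intro h; exact absurd (Finset.mem_univ _) h

theorem Ad_mk (g : GL (Fin 3) k) : Ad (Matrix.ProjGenLinGroup.mk g) = adGL g := rfl

theorem trace_Ad (g : GL (Fin 3) k) :
    LinearMap.trace k (pgl3 k) (Ad (Matrix.ProjGenLinGroup.mk g))
      = g.1.trace * (g⁻¹).1.trace - 1 := by
  rw [Ad_mk, adGL_apply, ← trace_conjMat g, trace_eq_add (scalars k) (conjMat g) (scalars_le g)]
  have h1 : (conjMat g).restrict (scalars_le g) = LinearMap.id := by
    apply LinearMap.ext
    rintro ⟨X, hX⟩
    apply Subtype.ext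
    rw [LinearMap.coe_restrict_apply, LinearMap.id_apply]
    unfold scalars at hX
    rw [Submodule.mem_span_singleton] at hX
    obtain ⟨a, rfl⟩ := hX
    simp only [map_smul, conjMat_one_mat]
  rw [h1, LinearMap.trace_id]
  have h2 : Module.finrank k (scalars k) = 1 := finrank_span_singleton one_ne_zero
  rw [h2]
  simp

end Trace

section Cyclotomic

variable (p : ℕ) [Fact p.Prime]

theorem cyc_spec (σ : GQ) {ζ : Qbar} (hζ : ζ ^ p = 1) :
    σ ζ = ζ ^ ((cyc p σ : ZMod p)).val := by
  have h0 : ζ ≠ 0 := by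
    rintro rfl
    rw [zero_pow (Fact.out : p.Prime).ne_zero] at hζ
    exact zero_ne_one hζ
  have ht : Units.mk0 ζ h0 ∈ rootsOfUnity p Qbar := by
    rw [mem_rootsOfUnity]
    apply Units.ext
    simpa using hζ
  exact modularCyclotomicCharacter.spec Qbar (card_rou p) (toRing σ) ht

theorem cyc_unique (σ : GQ) {c : ZMod p} (h : ∀ ζ : Qbar, ζ ^ p = 1 → σ ζ = ζ ^ c.val) :
    (cyc p σ : ZMod p) = c := by
  symm
  refine modularCyclotomicCharacter.unique Qbar (card_rou p) (toRing σ) (c := c) ?_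
  intro t ht
  rw [mem_rootsOfUnity] at ht
  have h1 : (t : Qbar) ^ p = 1 := by
    have := congrArg Units.val ht
    simpa using this
  exact h _ h1

theorem cyc_complexConj {c : GQ} (hc : IsComplexConj c) : cyc p c = -1 := by
  obtain ⟨ι, hι⟩ := hc
  have hp := (Fact.out : p.Prime)
  apply Units.ext
  apply cyc_unique
  intro ζ hζ
  have h0 : ζ ≠ 0 := by
    rintro rfl
    rw [zero_pow hp.ne_zero] at hζ
    exact zero_ne_one hζ
  have hnorm : ‖ι ζ‖ = 1 := by
    have h1 : (ι ζ) ^ p = 1 := by rw [← map_pow, hζ, map_one]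
    have h2 : ‖ι ζ‖ ^ p = 1 := by rw [← norm_pow, h1, norm_one]
    exact (pow_eq_one_iff_of_nonneg (norm_nonneg _) hp.ne_zero).mp h2
  have hinv : c ζ = ζ⁻¹ := by
    apply ι.injective
    rw [hι, map_inv₀]
    have h3 : ι ζ * (starRingEnd ℂ) (ι ζ) = 1 := by
      rw [Complex.mul_conj, Complex.normSq_eq_norm_sq, hnorm]
      simp
    have h4 : ι ζ ≠ 0 := by
      rw [Ne, map_eq_zero]; exact h0
    field_simp
    rw [mul_comm]
    exact h3
  have hval : ((-1 : (ZMod p)ˣ) : ZMod p).val + 1 = p := by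
    have h5 : ((-1 : (ZMod p)ˣ) : ZMod p) = -1 := by simp
    rw [h5]
    obtain ⟨n, rfl⟩ : ∃ n, p = n + 1 := ⟨p - 1, (Nat.succ_pred_eq_of_pos hp.pos).symm⟩
    rw [ZMod.val_neg_one]
  rw [hinv]
  have h6 : ζ ^ (((-1 : (ZMod p)ˣ) : ZMod p).val) * ζ = 1 := by
    rw [← pow_succ, hval, hζ]
  exact (eq_inv_of_mul_eq_one_left h6).symm

theorem inertia_le (A : ValuationSubring Qbar) : inertia A ≤ A.decompositionSubgroup ℚ := by
  rintro _ ⟨σ, _, rfl⟩
  exact σ.2

theorem mem_of_pow_eq_one (A : ValuationSubring Qbar) {ζ : Qbar} {n : ℕ} (hn : n ≠ 0)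
    (h : ζ ^ n = 1) : ζ ∈ A := by
  rw [← ValuationSubring.valuation_le_one_iff]
  by_contra hlt
  push Not at hlt
  have h1 : 1 < A.valuation ζ ^ n := one_lt_pow₀ hlt hn
  rw [← map_pow, h, map_one] at h1
  exact lt_irrefl _ h1

theorem residue_inertia {A : ValuationSubring Qbar} {σ : GQ} (hσ : σ ∈ inertia A) {z : Qbar}
    (hz : z ∈ A) : A.valuation (σ z - z) < 1 := by
  obtain ⟨τ, hτ, rfl⟩ := hσ
  have h1 : (MulSemiringAction.toRingAut (A.decompositionSubgroup ℚ)
      (IsLocalRing.ResidueField A)) τ = 1 := hτ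
  have h2 : τ • (IsLocalRing.residue A ⟨z, hz⟩) = IsLocalRing.residue A ⟨z, hz⟩ := by
    have := congrArg (fun f => f (IsLocalRing.residue A ⟨z, hz⟩)) h1
    simpa using this
  rw [← IsLocalRing.ResidueField.residue_smul, ← sub_eq_zero, ← map_sub,
    IsLocalRing.residue_eq_zero_iff] at h2
  have h3 := (ValuationSubring.valuation_lt_one_iff A _).mp h2
  exact h3

theorem cyc_inertia {l : ℕ} (hl : l.Prime) (hlp : l ≠ p) {A : ValuationSubring Qbar}
    (hA : LiesOver A l) {σ : GQ} (hσ : σ ∈ inertia A) : cyc p σ = 1 := by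
  have hp := (Fact.out : p.Prime)
  obtain ⟨ζ, hζ⟩ := exists_prim p
  by_contra hne
  -- the exponent
  set a := ((cyc p σ : ZMod p)).val with ha
  have hspec : σ ζ = ζ ^ a := cyc_spec p σ hζ.pow_eq_one
  have ha1 : (a : ZMod p) = (cyc p σ : ZMod p) := by
    rw [ha, ZMod.natCast_zmod_val]
  have hapos : 0 < a := by
    rcases Nat.eq_zero_or_pos a with h | h
    · exfalso
      have : (cyc p σ : ZMod p) = 0 := by rw [← ha1, h, Nat.cast_zero]
      exact (cyc p σ).ne_zero this
    · exact h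
  have hane : a ≠ 1 := by
    intro h
    apply hne
    apply Units.ext
    rw [← ha1, h, Nat.cast_one, Units.val_one]
  have halt : a < p := ZMod.val_lt _
  set ξ := ζ ^ (a - 1) with hξ
  have hξp : IsPrimitiveRoot ξ p := by
    apply hζ.pow_of_coprime
    rw [Nat.coprime_comm, Nat.Prime.coprime_iff_not_dvd hp]
    intro hdvd
    have := Nat.le_of_dvd (by omega) hdvd
    omega
  have hζA : ζ ∈ A := mem_of_pow_eq_one A hp.ne_zero hζ.pow_eq_one
  have hζv : A.valuation ζ = 1 := by
    have h1 : A.valuation ζ ≤ 1 := (ValuationSubring.valuation_le_one_iff A ζ).mpr hζA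
    rcases h1.lt_or_eq with h | h
    · exfalso
      have h2 : A.valuation ζ ^ p < 1 := pow_lt_one₀ zero_le h hp.ne_zero
      rw [← map_pow, hζ.pow_eq_one, map_one] at h2
      exact lt_irrefl _ h2
    · exact h
  have hr := residue_inertia hσ hζA
  have h3 : A.valuation (ξ - 1) < 1 := by
    have h4 : σ ζ - ζ = ζ * (ξ - 1) := by
      rw [hspec, hξ, mul_sub, mul_one, ← pow_succ', Nat.sub_add_cancel hapos]
    rw [h4, map_mul, hζv, one_mul] at hr
    exact hr
  -- geometric sum
  have hgeom : ∑ j ∈ Finset.range p, ξ ^ j = 0 := hξp.geom_sum_eq_zero hp.one_lt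
  have h5 : A.valuation (p : Qbar) < 1 := by
    have h6 : (p : Qbar) = ∑ j ∈ Finset.range p, (1 - ξ ^ j) := by
      rw [Finset.sum_sub_distrib, hgeom]
      simp
    rw [h6]
    apply Valuation.map_sum_lt _ one_ne_zero
    intro j _
    have h7 : ξ ^ j - 1 = (ξ - 1) * ∑ i ∈ Finset.range j, ξ ^ i := (mul_geom_sum ξ j).symm
    rw [← Valuation.map_neg, neg_sub, h7, map_mul]
    have h8 : A.valuation (∑ i ∈ Finset.range j, ξ ^ i) ≤ 1 := by
      apply Valuation.map_sum_le
      intro i _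
      rw [map_pow]
      apply pow_le_one'
      rw [ValuationSubring.valuation_le_one_iff]
      exact A.toSubring.pow_mem hζA _
    calc A.valuation (ξ - 1) * A.valuation (∑ i ∈ Finset.range j, ξ ^ i)
        ≤ A.valuation (ξ - 1) * 1 := mul_le_mul_right h8 _
      _ < 1 := by rw [mul_one]; exact h3
  -- l and p coprime
  have hcop : Nat.Coprime l p := (Nat.coprime_primes hl hp).mpr hlp
  have hbez := Nat.isCoprime_iff_coprime.mpr hcop
  obtain ⟨u, v, huv⟩ := hbez
  have h9 : (u : Qbar) * (l : Qbar) + (v : Qbar) * (p : Qbar) = 1 := by exact_mod_cast congrArg (Int.cast (R := Qbar)) huv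
  have hint : ∀ m : ℤ, A.valuation (m : Qbar) ≤ 1 := by
    intro m
    rw [ValuationSubring.valuation_le_one_iff]
    exact intCast_mem A.toSubring m
  have h10 : A.valuation ((u : Qbar) * (l : Qbar) + (v : Qbar) * (p : Qbar)) < 1 := by
    apply Valuation.map_add_lt
    · rw [map_mul]
      calc A.valuation (u : Qbar) * A.valuation (l : Qbar) ≤ 1 * A.valuation (l : Qbar) :=
            mul_le_mul_left (hint u) _
        _ < 1 := by rw [one_mul]; exact hA
    · rw [map_mul]
      calc A.valuation (v : Qbar) * A.valuation (p : Qbar) ≤ 1 * A.valuation (p : Qbar) :=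
            mul_le_mul_left (hint v) _
        _ < 1 := by rw [one_mul]; exact h5
  rw [h9, map_one] at h10
  exact lt_irrefl _ h10

theorem isOpen_ker_cyc : IsOpen ((cyc p).ker : Set GQ) := by
  obtain ⟨ζ, hζ⟩ := exists_prim p
  have hp := (Fact.out : p.Prime)
  let L : IntermediateField ℚ Qbar := IntermediateField.adjoin ℚ {ζ}
  have hfin : FiniteDimensional ℚ L :=
    IntermediateField.adjoin.finiteDimensional (hζ.isIntegral hp.pos).tower_top
  refine Subgroup.isOpen_mono ?_ (IntermediateField.fixingSubgroup_isOpen L)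
  intro σ hσ
  rw [MonoidHom.mem_ker]
  rw [IntermediateField.mem_fixingSubgroup_iff] at hσ
  have hζσ : σ ζ = ζ := hσ ζ (IntermediateField.mem_adjoin_simple_self ℚ ζ)
  apply Units.ext
  apply cyc_unique
  intro ξ hξ
  obtain ⟨i, _, rfl⟩ := hζ.eq_pow_of_pow_eq_one hξ
  rw [map_pow, hζσ]
  have : ((1 : (ZMod p)ˣ) : ZMod p).val = 1 := by
    rw [Units.val_one]
    have : Fact (1 < p) := ⟨hp.one_lt⟩
    exact ZMod.val_one p
  rw [this, pow_one]

end Cyclotomic

section Reps

variable (p : ℕ) [Fact p.Prime] (k : Type) [Field k] [CharP k p]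

/-- The diagonal torus of `GL_3(k)`. -/
def diagGL {k : Type} [Field k] : (Fin 3 → kˣ) →* GL (Fin 3) k where
  toFun t := ⟨Matrix.diagonal (fun i => (t i : k)), Matrix.diagonal (fun i => (((t i)⁻¹ : kˣ) : k)),
    by rw [Matrix.diagonal_mul_diagonal]; simp, by rw [Matrix.diagonal_mul_diagonal]; simp⟩
  map_one' := by
    apply Units.ext
    simp
  map_mul' s t := by
    apply Units.ext
    simp [Matrix.diagonal_mul_diagonal]

theorem diagGL_val {k : Type} [Field k] (t : Fin 3 → kˣ) :
    (diagGL t).1 = Matrix.diagonal (fun i => (t i : k)) := rfl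

/-- The character `σ ↦ (ω(σ)^{x_1}, ω(σ)^{x_2}, ω(σ)^{x_3})`. -/
noncomputable def torusChar (x : Fin 3 → ℤ) : GQ →* (Fin 3 → kˣ) where
  toFun σ i := omega p k σ ^ x i
  map_one' := by
    ext i
    simp
  map_mul' σ τ := by
    ext i
    simp [mul_zpow]

/-- The representation `x^∨ ∘ ω : Gal(Qbar/ℚ) → T^∨(k) ⊂ PGL_3(k)`. -/
noncomputable def rbar (x : Fin 3 → ℤ) : GQ →* PGL3 k :=
  Matrix.ProjGenLinGroup.mk.comp (diagGL.comp (torusChar p k x))

theorem rbar_apply (x : Fin 3 → ℤ) (σ : GQ) :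
    rbar p k x σ = Matrix.ProjGenLinGroup.mk (diagGL (torusChar p k x σ)) := rfl

theorem rbar_eq_one_of_cyc (x : Fin 3 → ℤ) {σ : GQ} (h : cyc p σ = 1) : rbar p k x σ = 1 := by
  have h1 : omega p k σ = 1 := by
    simp [omega, h]
  have h2 : torusChar p k x σ = 1 := by
    ext i
    simp [torusChar, h1]
  rw [rbar_apply, h2, map_one, map_one]

theorem rbar_continuous (x : Fin 3 → ℤ) : IsContinuous (rbar p k x) := by
  intro s
  have hopen : IsOpen ((rbar p k x).ker : Set GQ) := by
    refine Subgroup.isOpen_mono ?_ (isOpen_ker_cyc p)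
    intro σ hσ
    exact rbar_eq_one_of_cyc p k x hσ
  have : (rbar p k x) ⁻¹' s = ⋃ σ ∈ (rbar p k x) ⁻¹' s, (fun τ => σ * τ) '' ((rbar p k x).ker : Set GQ) := by
    ext τ
    simp only [Set.mem_preimage, Set.mem_iUnion, Set.mem_image, SetLike.mem_coe, exists_prop]
    constructor
    · intro h
      exact ⟨τ, h, 1, one_mem _, mul_one τ⟩
    · rintro ⟨σ, hσ, κ, hκ, rfl⟩
      rw [MonoidHom.mem_ker] at hκ
      rw [map_mul, hκ, mul_one]
      exact hσ
  rw [this]
  refine isOpen_biUnion (fun σ _ => ?_)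
  exact isOpenMap_mul_left σ _ hopen

theorem rbar_unramified (x : Fin 3 → ℤ) {l : ℕ} (hl : l.Prime) (hlp : l ≠ p) :
    UnramifiedAt l (rbar p k x) := by
  intro A hA σ hσ
  exact rbar_eq_one_of_cyc p k x (cyc_inertia p hl hlp hA hσ)

theorem rbar_nearlyOrdinary (x : Fin 3 → ℤ) : NearlyOrdinary p x (rbar p k x) := by
  intro A _
  have hup : ∀ t : Fin 3 → kˣ, IsUpper (diagGL t) := by
    intro t i j hij
    rw [diagGL_val, Matrix.diagonal_apply_ne]
    exact hij.ne'
  refine ⟨1, fun σ _ => ⟨diagGL (torusChar p k x σ), hup _, ?_⟩,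
    fun σ _ => ⟨diagGL (torusChar p k x σ), hup _, ?_, ?_⟩⟩
  · rw [one_mul, inv_one, mul_one, rbar_apply]
  · rw [one_mul, inv_one, mul_one, rbar_apply]
  · intro i
    rw [diagGL_val, Matrix.diagonal_apply_eq]
    rfl

theorem rbar_odd : IsOdd (rbar p k ![5, 2, 0]) := by
  intro c hc
  have h1 : omega p k c = -1 := by
    rw [omega, MonoidHom.comp_apply, cyc_complexConj p hc]
    apply Units.ext
    simp
  have h2 : torusChar p k ![5, 2, 0] c = ![-1, 1, 1] := by
    ext i
    fin_cases i <;> simp [torusChar, h1] <;> norm_num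
  rw [rbar_apply, trace_Ad, h2, ← map_inv, diagGL_val, diagGL_val, Matrix.trace_diagonal,
    Matrix.trace_diagonal, Fin.sum_univ_three, Fin.sum_univ_three]
  simp

end Reps

/-- A complex conjugation exists. -/
theorem exists_complexConj : ∃ c : GQ, IsComplexConj c := by
  have halg : Algebra.IsAlgebraic ℚ Qbar := AlgebraicClosure.isAlgebraic ℚ
  have hac : IsAlgClosure ℚ Qbar := ⟨inferInstance, halg⟩
  let ι : Qbar →ₐ[ℚ] ℂ := IsAlgClosed.lift
  let _ : Algebra Qbar ℂ := ι.toRingHom.toAlgebra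
  have _ : IsScalarTower ℚ Qbar ℂ := IsScalarTower.of_algebraMap_eq (fun q => by
    have := ι.commutes q
    exact this.symm)
  let χ : ℂ ≃ₐ[ℚ] ℂ := Complex.conjAe.restrictScalars ℚ
  have _ : Normal ℚ Qbar := IsAlgClosure.normal ℚ Qbar
  refine ⟨χ.restrictNormal Qbar, ι.toRingHom, fun z => ?_⟩
  have := AlgEquiv.restrictNormal_commutes χ Qbar z
  exact this

/-- A place of `Qbar` over the prime `p` exists. -/
theorem exists_place (p : ℕ) (hp : p.Prime) : ∃ A : ValuationSubring Qbar, LiesOver A p := by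
  let A : Subring Qbar := (Int.castRingHom Qbar).range
  have hpA : (p : Qbar) ∈ A := ⟨(p : ℤ), by simp⟩
  let I : Ideal A := Ideal.span {⟨(p : Qbar), hpA⟩}
  have hI : I ≠ ⊤ := by
    intro h
    have h1 : (1 : A) ∈ I := by rw [h]; exact Submodule.mem_top
    rw [Ideal.mem_span_singleton'] at h1
    obtain ⟨⟨_, n, rfl⟩, ha⟩ := h1
    have h2 := congrArg Subtype.val ha
    have h3 : ((n * (p : ℤ) : ℤ) : Qbar) = ((1 : ℤ) : Qbar) := by
      push_cast
      simpa using h2
    have h4 : n * (p : ℤ) = 1 := Int.cast_injective h3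
    have h5 : IsUnit (p : ℤ) := IsUnit.of_mul_eq_one_right n h4
    exact (Nat.prime_iff_prime_int.mp hp).not_isUnit h5
  obtain ⟨B, hAB, hB⟩ := Ideal.image_subset_nonunits_valuationSubring I hI
  refine ⟨B, ?_⟩
  have h1 : (p : Qbar) ∈ B.nonunits := hB ⟨⟨(p : Qbar), hpA⟩, Ideal.subset_span rfl, rfl⟩
  exact B.mem_nonunits_iff.mp h1

end Pool.Agent.SL3
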