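import Mathlib

/-!
# Group cohomology from a resolution of length 3

If `0 ⟶ P3 ⟶ P2 ⟶ P1 ⟶ P0 ⟶ k ⟶ 0` is an exact sequence of `k`-linear representations of `G`
with all `Pi` projective and the complex `Hom(P, A)` is exact, then `H^n(G, A) = 0` for all `n`.
-/

open CategoryTheory

namespace Pool.Agent.SL3

universe u

noncomputable section

variable {k G : Type u} [CommRing k] [Group G]

section Res

variable (P0 P1 P2 P3 : Rep.{u} k G) (d1 : P1 ⟶ P0) (d2 : P2 ⟶ P1) (d3 : P3 ⟶ P2)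

open ZeroObject in
/-- The objects of the resolution. -/
def resX : ℕ → Rep.{u} k G
  | 0 => P0
  | 1 => P1
  | 2 => P2
  | 3 => P3
  | _ + 4 => 0

/-- The differentials of the resolution. -/
def resD : ∀ n : ℕ, resX P0 P1 P2 P3 (n + 1) ⟶ resX P0 P1 P2 P3 n
  | 0 => d1
  | 1 => d2
  | 2 => d3
  | _ + 3 => 0

theorem resD_comp (h21 : d2 ≫ d1 = 0) (h32 : d3 ≫ d2 = 0) (n : ℕ) :
    resD P0 P1 P2 P3 d1 d2 d3 (n + 1) ≫ resD P0 P1 P2 P3 d1 d2 d3 n = 0 := by
  rcases n with _ | _ | n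
  · exact h21
  · exact h32
  · show 0 ≫ _ = 0
    exact Limits.zero_comp

/-- The resolution, as a chain complex. -/
def resC (h21 : d2 ≫ d1 = 0) (h32 : d3 ≫ d2 = 0) : ChainComplex (Rep.{u} k G) ℕ :=
  ChainComplex.of (resX P0 P1 P2 P3) (resD P0 P1 P2 P3 d1 d2 d3)
    (resD_comp P0 P1 P2 P3 d1 d2 d3 h21 h32)

theorem resC_X (h21 : d2 ≫ d1 = 0) (h32 : d3 ≫ d2 = 0) (n : ℕ) :
    (resC P0 P1 P2 P3 d1 d2 d3 h21 h32).X n = resX P0 P1 P2 P3 n := rfl

theorem resC_d (h21 : d2 ≫ d1 = 0) (h32 : d3 ≫ d2 = 0) (n : ℕ) :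
    (resC P0 P1 P2 P3 d1 d2 d3 h21 h32).d (n + 1) n = resD P0 P1 P2 P3 d1 d2 d3 n :=
  ChainComplex.of_d (X := resX P0 P1 P2 P3) _ _

end Res

/-- A short complex of representations is exact if it is so as a sequence of functions. -/
theorem exact_of_function_exact {A B C : Rep.{u} k G} (f : A ⟶ B) (g : B ⟶ C) (w : f ≫ g = 0)
    (h : Function.Exact f g) : (ShortComplex.mk f g w).Exact := by
  apply (forget₂ _ (ModuleCat k)).reflects_exact_of_faithful
  rw [ShortComplex.moduleCat_exact_iff]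
  intro x hx
  obtain ⟨y, hy⟩ := (h x).1 hx
  exact ⟨y, hy⟩

section Main

variable {P0 P1 P2 P3 : Rep.{u} k G} {e : P0 ⟶ Rep.trivial k G k}
  {d1 : P1 ⟶ P0} {d2 : P2 ⟶ P1} {d3 : P3 ⟶ P2}

theorem comp_eq_zero_of_exact {A B C : Rep.{u} k G} (f : A ⟶ B) (g : B ⟶ C)
    (h : Function.Exact f g) : f ≫ g = 0 := by
  ext x
  exact h.apply_apply_eq_zero x

/-- The augmentation as a chain map. -/
def resπ (h21 : d2 ≫ d1 = 0) (h32 : d3 ≫ d2 = 0) (h10 : d1 ≫ e = 0) :
    resC P0 P1 P2 P3 d1 d2 d3 h21 h32 ⟶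
      (ChainComplex.single₀ (Rep k G)).obj (Rep.trivial k G k) :=
  ((resC P0 P1 P2 P3 d1 d2 d3 h21 h32).toSingle₀Equiv _).symm ⟨e, by
    rw [resC_d]
    exact h10⟩

theorem exactAt_of {C : ChainComplex (Rep.{u} k G) ℕ} {n : ℕ} (f : C.X (n + 2) ⟶ C.X (n + 1))
    (g : C.X (n + 1) ⟶ C.X n) (hf : C.d (n + 2) (n + 1) = f) (hg : C.d (n + 1) n = g)
    (h : Function.Exact f g) : C.ExactAt (n + 1) := by
  subst hf hg
  rw [HomologicalComplex.exactAt_iff' _ (n + 2) (n + 1) n (by simp) (by simp)]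
  exact exact_of_function_exact _ _ (C.d_comp_d _ _ _) h

theorem aux_mk {A B C : Rep.{u} k G} {f f' : A ⟶ B} {g g' : B ⟶ C} (hf : f = f') (hg : g = g')
    {w : f ≫ g = 0} {w' : f' ≫ g' = 0} (h : (ShortComplex.mk f g w).Exact) :
    (ShortComplex.mk f' g' w').Exact := by
  subst hf hg
  exact h

theorem zero_eq_of_obj (x : resX P0 P1 P2 P3 4) : x = 0 := by
  have h : Limits.IsZero (resX P0 P1 P2 P3 4) := Limits.isZero_zero _
  have h2 := (Rep.isZero_iff _ _ _).1 h
  exact Subsingleton.elim x 0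

theorem exactAt_succ (e2 : Function.Exact d2 d1)
    (e3 : Function.Exact d3 d2) (i3 : Function.Injective d3)
    (h21 : d2 ≫ d1 = 0) (h32 : d3 ≫ d2 = 0) (n : ℕ) :
    (resC P0 P1 P2 P3 d1 d2 d3 h21 h32).ExactAt (n + 1) := by
  have hd := resC_d P0 P1 P2 P3 d1 d2 d3 h21 h32
  rcases n with _ | _ | _ | n
  · exact exactAt_of d2 d1 (hd 1) (hd 0) e2
  · exact exactAt_of d3 d2 (hd 2) (hd 1) e3
  · refine exactAt_of (0 : resX P0 P1 P2 P3 4 ⟶ P3) d3 (hd 3) (hd 2) ?_
    intro (x : P3)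
    constructor
    · intro hx
      refine ⟨0, ?_⟩
      have h0 : x = 0 := i3 (hx.trans (map_zero d3.hom).symm)
      rw [h0]
      exact map_zero _
    · rintro ⟨y, hy⟩
      have hy' : (0 : P3) = x := hy
      rw [← hy']
      exact map_zero d3.hom
  · rw [HomologicalComplex.exactAt_iff]
    refine ShortComplex.exact_of_isZero_X₂ _ ?_
    exact Limits.isZero_zero _

theorem quasiIso_resπ (he : Function.Surjective e) (e1 : Function.Exact d1 e)
    (e2 : Function.Exact d2 d1)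
    (e3 : Function.Exact d3 d2) (i3 : Function.Injective d3)
    (h21 : d2 ≫ d1 = 0) (h32 : d3 ≫ d2 = 0) (h10 : d1 ≫ e = 0) :
    QuasiIso (resπ h21 h32 h10) where
  quasiIsoAt m := by
    rcases m with _ | m
    · simp only [resπ]
      rw [ChainComplex.quasiIsoAt₀_iff, ShortComplex.quasiIso_iff_of_zeros' _ rfl rfl rfl]
      constructor
      · have h1 : (resC P0 P1 P2 P3 d1 d2 d3 h21 h32).d 1 0 = d1 := resC_d P0 P1 P2 P3 d1 d2 d3 h21 h32 0
        refine aux_mk h1.symm ?_ (exact_of_function_exact d1 e h10 e1)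
        exact (ChainComplex.toSingle₀Equiv_symm_apply_f_zero
          (C := resC P0 P1 P2 P3 d1 d2 d3 h21 h32) (X := Rep.trivial k G k) e (by
            rw [resC_d]
            exact h10)).symm
      · rw [Rep.epi_iff_surjective]
        intro x
        obtain ⟨y, hy⟩ := he x
        refine ⟨y, ?_⟩
        rw [← hy]
        have h0 := ChainComplex.toSingle₀Equiv_symm_apply_f_zero
          (C := resC P0 P1 P2 P3 d1 d2 d3 h21 h32) (X := Rep.trivial k G k) e (by
            rw [resC_d]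
            exact h10)
        exact congrArg (fun f : P0 ⟶ Rep.trivial k G k => f y) h0
    · rw [quasiIsoAt_iff_exactAt' (hL := ChainComplex.exactAt_succ_single_obj ..)]
      exact exactAt_succ e2 e3 i3 h21 h32 m

/-- The projective resolution. -/
def resP [Projective P0] [Projective P1] [Projective P2] [Projective P3]
    (he : Function.Surjective e) (e1 : Function.Exact d1 e)
    (e2 : Function.Exact d2 d1)
    (e3 : Function.Exact d3 d2) (i3 : Function.Injective d3) :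
    ProjectiveResolution (Rep.trivial k G k) where
  complex := resC P0 P1 P2 P3 d1 d2 d3 (comp_eq_zero_of_exact _ _ e2) (comp_eq_zero_of_exact _ _ e3)
  projective n := by
    rcases n with _ | _ | _ | _ | n
    · exact inferInstanceAs (Projective P0)
    · exact inferInstanceAs (Projective P1)
    · exact inferInstanceAs (Projective P2)
    · exact inferInstanceAs (Projective P3)
    · exact Projective.zero_projective
  π := resπ _ _ (comp_eq_zero_of_exact _ _ e1)
  quasiIso := quasiIso_resπ he e1 e2 e3 i3 _ _ _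

/-- Exactness of the complex `Hom(C, A)` in degree `n + 1`. -/
theorem yoneda_exactAt_succ {C : ChainComplex (Rep.{u} k G) ℕ} {A : Rep.{u} k G} {n : ℕ}
    (h : ∀ f : C.X (n + 1) ⟶ A, C.d (n + 2) (n + 1) ≫ f = 0 →
      ∃ g : C.X n ⟶ A, f = C.d (n + 1) n ≫ g) :
    (C.linearYonedaObj k A).ExactAt (n + 1) := by
  rw [HomologicalComplex.exactAt_iff' _ n (n + 1) (n + 2) (by simp) (by simp)]
  rw [ShortComplex.moduleCat_exact_iff]
  intro x hx
  obtain ⟨y, hy⟩ := h x hx
  exact ⟨y, hy.symm⟩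

/-- Exactness of the complex `Hom(C, A)` in degree `0`. -/
theorem yoneda_exactAt_zero {C : ChainComplex (Rep.{u} k G) ℕ} {A : Rep.{u} k G}
    (h : ∀ f : C.X 0 ⟶ A, C.d 1 0 ≫ f = 0 → f = 0) :
    (C.linearYonedaObj k A).ExactAt 0 := by
  rw [HomologicalComplex.exactAt_iff' _ 0 0 1 (by simp) (by simp)]
  rw [ShortComplex.moduleCat_exact_iff]
  intro x hx
  have := h x hx
  exact ⟨0, (map_zero _).trans this.symm⟩

/-- **Vanishing of group cohomology** from a projective resolution of length `3` of the trivial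
representation and exactness of the complex of equivariant maps to `A`. -/
theorem isZero_groupCohomology [Projective P0] [Projective P1] [Projective P2] [Projective P3]
    (he : Function.Surjective e) (e1 : Function.Exact d1 e)
    (e2 : Function.Exact d2 d1)
    (e3 : Function.Exact d3 d2) (i3 : Function.Injective d3) {A : Rep.{u} k G}
    (h0 : ∀ f : P0 ⟶ A, d1 ≫ f = 0 → f = 0)
    (h1 : ∀ f : P1 ⟶ A, d2 ≫ f = 0 → ∃ g : P0 ⟶ A, f = d1 ≫ g)
    (h2 : ∀ f : P2 ⟶ A, d3 ≫ f = 0 → ∃ g : P1 ⟶ A, f = d2 ≫ g)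
    (h3 : ∀ f : P3 ⟶ A, ∃ g : P2 ⟶ A, f = d3 ≫ g) (n : ℕ) :
    Limits.IsZero (groupCohomology A n) := by
  refine Limits.IsZero.of_iso ?_ (groupCohomologyIso A n (resP he e1 e2 e3 i3))
  rw [← HomologicalComplex.exactAt_iff_isZero_homology]
  have hd := resC_d P0 P1 P2 P3 d1 d2 d3 (comp_eq_zero_of_exact _ _ e2)
    (comp_eq_zero_of_exact _ _ e3)
  rcases n with _ | _ | _ | _ | n
  · apply yoneda_exactAt_zero
    intro f hf
    exact h0 f (((congrArg (fun z : P1 ⟶ P0 => z ≫ f) (hd 0)).symm).trans hf)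
  · apply yoneda_exactAt_succ
    intro f hf
    obtain ⟨g, hg⟩ := h1 f (((congrArg (fun z : P2 ⟶ P1 => z ≫ f) (hd 1)).symm).trans hf)
    exact ⟨g, hg.trans (congrArg (fun z : P1 ⟶ P0 => z ≫ g) (hd 0)).symm⟩
  · apply yoneda_exactAt_succ
    intro f hf
    obtain ⟨g, hg⟩ := h2 f (((congrArg (fun z : P3 ⟶ P2 => z ≫ f) (hd 2)).symm).trans hf)
    exact ⟨g, hg.trans (congrArg (fun z : P2 ⟶ P1 => z ≫ g) (hd 1)).symm⟩
  · apply yoneda_exactAt_succ
    intro f _
    obtain ⟨g, hg⟩ := h3 f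
    exact ⟨g, hg.trans (congrArg (fun z : P3 ⟶ P2 => z ≫ g) (hd 2)).symm⟩
  · apply yoneda_exactAt_succ
    intro f _
    refine ⟨0, ?_⟩
    have hz : Limits.IsZero ((resP he e1 e2 e3 i3).complex.X (n + 3 + 1)) :=
      Limits.isZero_zero (Rep.{u} k G)
    exact hz.eq_of_src _ _

end Main

end

end Pool.Agent.SL3
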