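import Pool.Agent.SL3.HighestWeight
import Pool.Agent.H98.Vanish

/-!
# Vanishing of the cohomology of `SL_3(ℤ)` with coefficients in `M ⊗ k`

`M` is any stable lattice in any irreducible representation of highest weight `(3,1,0)`, and `k` is
a field of characteristic at least `5`.
-/

open Matrix TensorProduct CategoryTheory

namespace Pool.Agent.SL3

section Bridge

variable {k : Type} [Field k]

theorem tens_eq_trl (R : Type) [CommRing R] : tens R = H98.trl R := by
  ext T
  rw [mem_tens, H98.mem_trl]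
  refine and_congr_left (fun _ => ⟨fun h l => ?_, fun h l i j => ?_⟩)
  · ext i j
    exact h l j i
  · conv_lhs => rw [← h l]
    rfl

/-- The two models agree. -/
def bridge (k : Type) [Field k] : tens k ≃ₗ[k] H98.trl k := LinearEquiv.ofEq _ _ (tens_eq_trl k)

theorem bridge_act (g : SL3 ℤ) (x : tens k) :
    bridge k (actZ k g x) = H98.mrep k g (bridge k x) := by
  apply Subtype.ext
  rfl

theorem isZero_of_equiv {G : Type} [Group G] {V W : Type} [AddCommGroup V] [Module k V]
    [AddCommGroup W] [Module k W] {ρ : Representation k G V} {σ : Representation k G W}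
    (e : V ≃ₗ[k] W) (he : ∀ g x, e (ρ g x) = σ g (e x)) (n : ℕ)
    (h : Limits.IsZero (groupCohomology (Rep.of σ) n)) :
    Limits.IsZero (groupCohomology (Rep.of ρ) n) := by
  let E : ρ.Equiv σ := Representation.Equiv.mk e (fun g => LinearMap.ext (fun x => he g x))
  exact h.of_iso ((groupCohomology.functor k G n).mapIso (Rep.mkIso E))

theorem vanish_tens (h6 : (6 : k) ≠ 0) (n : ℕ) :
    Limits.IsZero (groupCohomology (Rep.of (actZ k)) n) :=
  isZero_of_equiv (bridge k) bridge_act n (H98.vanish h6 n)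

/-- Main vanishing theorem. -/
theorem vanish_lattice {lam : Fin 3 → ℤ} (h1 : lam 0 - lam 1 = 2) (h2 : lam 1 - lam 2 = 1)
    {V : Type} [AddCommGroup V] [Module ℚ V]
    {ρ : Representation ℚ (SL3 ℚ) V} (h : IsIrrepOfHighestWeight ρ lam)
    (L : Submodule ℤ V) [Submodule.IsLattice ℚ L] (hL : LatStable ρ L)
    (p : ℕ) [CharP k p] (hp : p.Prime) (hp5 : 5 ≤ p) (n : ℕ) :
    Limits.IsZero (groupCohomology (Rep.of (latRep k hL)) n) := by
  have h6 : (6 : k) ≠ 0 := by
    intro h
    have h1 : ((6 : ℕ) : k) = 0 := by exact_mod_cast h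
    rw [CharP.cast_eq_zero_iff k p] at h1
    have h2 : p ≤ 6 := Nat.le_of_dvd (by norm_num) h1
    interval_cases p
    · omega
    · revert hp; decide
  obtain ⟨φ, hφ⟩ := reduction h1 h2 h L hL k p hp hp5
  exact isZero_of_equiv φ hφ n (vanish_tens h6 n)

end Bridge

section ExistsLattice

theorem finite_tensZ : Module.Finite ℤ (tens ℤ) :=
  Module.Finite.equiv (coordEquiv ℤ).symm

/-- The standard lattice is a lattice. -/
theorem isLattice_range : Submodule.IsLattice ℚ (LinearMap.range (castZ ℚ)) := by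
  have := finite_tensZ
  refine ⟨?_, ?_⟩
  · rw [← Submodule.map_top]
    exact Submodule.FG.map _ Module.Finite.fg_top
  · rw [Submodule.eq_top_iff']
    intro T
    obtain ⟨b, hb⟩ := IsLocalization.exist_integer_multiples_of_finite (nonZeroDivisors ℤ)
      (fun i : Fin 3 × Fin 3 × Fin 3 => (T.1 i.1 i.2.1 i.2.2 : ℚ))
    have hb0 : ((b : ℤ) : ℚ) ≠ 0 := by
      have : (b : ℤ) ≠ 0 := nonZeroDivisors.ne_zero b.2
      exact_mod_cast this
    have h1 : (((b : ℤ) : ℚ)) • T ∈ LinearMap.range (castZ ℚ) := by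
      apply mem_range_castZ
      intro l x y
      obtain ⟨m, hm⟩ := hb (l, x, y)
      refine ⟨m, ?_⟩
      simp only [eq_intCast] at hm
      rw [hm]
      change (b : ℤ) • (T.1 l x y) = ((b : ℤ) : ℚ) * T.1 l x y
      rw [zsmul_eq_mul]
    have h2 : T = (((b : ℤ) : ℚ))⁻¹ • ((((b : ℤ) : ℚ)) • T) := by
      rw [smul_smul, inv_mul_cancel₀ hb0, one_smul]
    rw [h2]
    exact Submodule.smul_mem _ _ (Submodule.subset_span h1)

theorem latStable_range : LatStable (act ℚ) (LinearMap.range (castZ ℚ)) := by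
  rintro g _ ⟨T, rfl⟩
  exact ⟨act ℤ g T, castZ_act ℚ g T⟩

end ExistsLattice

end Pool.Agent.SL3
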