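import Mathlib

/-!
# Definitions for mod `p` modularity, specialised to `G = SL_3`

The dual group of `SL_3` is `PGL_3`. A character `x` of the diagonal torus of `SL_3` is written as
`x : Fin 3 → ℤ`, standing for `diag(t₀,t₁,t₂) ↦ t₀^{x 0} t₁^{x 1} t₂^{x 2}`; two such tuples give the
same character iff they differ by a constant. The cocharacter `x^∨` of the dual torus is
`t ↦ diag(t^{x 0}, t^{x 1}, t^{x 2})` in `PGL_3`. The Borel subgroups are the upper triangular ones.
-/

open scoped TensorProduct

namespace Pool.Agent.SL3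

/-! ## The Galois side -/

/-- An algebraic closure of `ℚ`. -/
abbrev Qbar : Type := AlgebraicClosure ℚ

/-- The absolute Galois group of `ℚ` (with the Krull topology). -/
abbrev GQ : Type := Qbar ≃ₐ[ℚ] Qbar

/-- The group of `k`-points of the dual group `PGL_3` of `SL_3`: `GL_3(k)` modulo its centre. -/
abbrev PGL3 (k : Type) [Field k] : Type := Matrix.ProjGenLinGroup (Fin 3) k

section Adjoint

variable (k : Type) [Field k]

/-- The scalar matrices, as a subspace of `M_3(k)`. -/
def scalars : Submodule k (Matrix (Fin 3) (Fin 3) k) := Submodule.span k {1}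

/-- The Lie algebra of `PGL_3` over `k`: `M_3(k)` modulo scalar matrices. -/
abbrev pgl3 : Type := Matrix (Fin 3) (Fin 3) k ⧸ scalars k

variable {k}

/-- Conjugation `X ↦ g X g⁻¹` on `M_3(k)`. -/
def conjMat (g : GL (Fin 3) k) : Matrix (Fin 3) (Fin 3) k →ₗ[k] Matrix (Fin 3) (Fin 3) k where
  toFun X := g.1 * X * (g⁻¹).1
  map_add' X Y := by rw [mul_add, add_mul]
  map_smul' a X := by rw [mul_smul_comm, smul_mul_assoc]; rfl

theorem conjMat_apply (g : GL (Fin 3) k) (X : Matrix (Fin 3) (Fin 3) k) :
    conjMat g X = g.1 * X * (g⁻¹).1 := rfl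

theorem conjMat_one_mat (g : GL (Fin 3) k) : conjMat g 1 = 1 := by
  rw [conjMat_apply, mul_one, ← Units.val_mul, mul_inv_cancel, Units.val_one]

theorem scalars_le (g : GL (Fin 3) k) : scalars k ≤ (scalars k).comap (conjMat g) := by
  unfold scalars
  rw [Submodule.span_le, Set.singleton_subset_iff, SetLike.mem_coe, Submodule.mem_comap,
    conjMat_one_mat]
  exact Submodule.mem_span_singleton_self 1

/-- The adjoint action of `GL_3(k)` on the Lie algebra of `PGL_3`. -/
def adGL : GL (Fin 3) k →* Module.End k (pgl3 k) where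
  toFun g := (scalars k).mapQ (scalars k) (conjMat g) (scalars_le g)
  map_one' := by
    ext X
    simp [conjMat_apply]
  map_mul' g h := by
    ext X
    simp [conjMat_apply, mul_assoc]

theorem adGL_apply (g : GL (Fin 3) k) :
    adGL g = (scalars k).mapQ (scalars k) (conjMat g) (scalars_le g) := rfl

theorem adGL_center (z : GL (Fin 3) k) (hz : z ∈ Subgroup.center (GL (Fin 3) k)) :
    adGL z = 1 := by
  rw [adGL_apply]
  have hz' := hz
  rw [Matrix.GeneralLinearGroup.mem_center_iff_val_mem_range_scalar] at hz'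
  obtain ⟨a, ha⟩ := hz'
  have h : conjMat z = LinearMap.id := by
    apply LinearMap.ext
    intro X
    rw [conjMat_apply, ← ha, LinearMap.id_apply,
      (Matrix.scalar_commute a (fun r => Commute.all a r) X).eq, mul_assoc, ha, ← Units.val_mul,
      mul_inv_cancel, Units.val_one, mul_one]
  ext X
  simp [h]

/-- The adjoint representation of `PGL_3(k)` on its Lie algebra. -/
def Ad : PGL3 k →* Module.End k (pgl3 k) :=
  QuotientGroup.lift (Subgroup.center (GL (Fin 3) k)) adGL adGL_center

end Adjoint

/-- `c` is a complex conjugation: it is induced by complex conjugation for some embedding of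
`Qbar` into `ℂ`. -/
def IsComplexConj (c : GQ) : Prop :=
  ∃ ι : Qbar →+* ℂ, ∀ z, ι (c z) = (starRingEnd ℂ) (ι z)

section Cyclotomic

variable (p : ℕ) [Fact p.Prime]

instance : NeZero (p : Qbar) := ⟨Nat.cast_ne_zero.mpr (Fact.out : p.Prime).ne_zero⟩

theorem exists_prim : ∃ ζ : Qbar, IsPrimitiveRoot ζ p :=
  HasEnoughRootsOfUnity.exists_primitiveRoot Qbar p

theorem card_rou : Nat.card (rootsOfUnity p Qbar) = p :=
  (exists_prim p).choose_spec.card_rootsOfUnity

/-- A Galois automorphism as a ring automorphism. -/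
noncomputable def toRing : GQ →* (Qbar ≃+* Qbar) where
  toFun σ := σ.toRingEquiv
  map_one' := rfl
  map_mul' _ _ := rfl

/-- The mod `p` cyclotomic character `Gal(Qbar/ℚ) → (ZMod p)ˣ`, `σ ζ = ζ ^ cyc σ`. -/
noncomputable def cyc : GQ →* (ZMod p)ˣ :=
  (modularCyclotomicCharacter Qbar (card_rou p)).comp toRing

variable (k : Type) [Field k] [CharP k p]

/-- The mod `p` cyclotomic character with values in `kˣ`. -/
noncomputable def omega : GQ →* kˣ :=
  (Units.map (ZMod.castHom (dvd_refl p) k).toMonoidHom).comp (cyc p)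

end Cyclotomic

/-- The valuation ring `A` of `Qbar` (a place of `Qbar`) lies over the prime number `l`. -/
def LiesOver (A : ValuationSubring Qbar) (l : ℕ) : Prop := A.valuation (l : Qbar) < 1

/-- The inertia group of the place `A`, as a subgroup of `Gal(Qbar/ℚ)`. -/
noncomputable def inertia (A : ValuationSubring Qbar) : Subgroup GQ :=
  (A.inertiaSubgroup ℚ).map (A.decompositionSubgroup ℚ).subtype

section Conditions

variable {k : Type} [Field k]

/-- `r` is continuous, for the Krull topology and the discrete topology. -/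
def IsContinuous (r : GQ →* PGL3 k) : Prop := ∀ s : Set (PGL3 k), IsOpen (r ⁻¹' s)

/-- `r` is odd: for every complex conjugation `c`, the trace of `Ad(r(c))` on the Lie algebra of
`PGL_3` is `rank(G) - 2 rank(K) = 2 - 2 * 1`, for `G = SL_3` and `K = SO(3)`. -/
def IsOdd (r : GQ →* PGL3 k) : Prop :=
  ∀ c : GQ, IsComplexConj c → LinearMap.trace k (pgl3 k) (Ad (r c)) = (2 : k) - 2 * 1

/-- The matrix `b` is upper triangular. -/
def IsUpper (b : GL (Fin 3) k) : Prop := ∀ i j : Fin 3, j < i → b.1 i j = 0

variable (p : ℕ) [Fact p.Prime] [CharP k p]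

/-- `r` is nearly ordinary of type `x` (at `p`): for every place `A` of `Qbar` over `p`, some
conjugate of `r` restricted to the decomposition group takes values in the upper triangular Borel
subgroup of `PGL_3(k)`, and its projection to the torus is `x^∨ ∘ ω` on the inertia group. -/
def NearlyOrdinary (x : Fin 3 → ℤ) (r : GQ →* PGL3 k) : Prop :=
  ∀ A : ValuationSubring Qbar, LiesOver A p → ∃ g : PGL3 k,
    (∀ σ ∈ A.decompositionSubgroup ℚ, ∃ b : GL (Fin 3) k, IsUpper b ∧
      Matrix.ProjGenLinGroup.mk b = g * r σ * g⁻¹) ∧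
    (∀ σ ∈ inertia A, ∃ b : GL (Fin 3) k, IsUpper b ∧
      Matrix.ProjGenLinGroup.mk b = g * r σ * g⁻¹ ∧
      ∀ i, b.1 i i = ((omega p k σ ^ x i : kˣ) : k))

/-- `r` is unramified at the prime `l`. -/
def UnramifiedAt (l : ℕ) (r : GQ →* PGL3 k) : Prop :=
  ∀ A : ValuationSubring Qbar, LiesOver A l → ∀ σ ∈ inertia A, r σ = 1

end Conditions

/-! ## The automorphic side -/

/-- The group `SL_3(R)`. -/
abbrev SL3 (R : Type*) [CommRing R] : Type _ := Matrix.SpecialLinearGroup (Fin 3) R

/-- The map `SL_3(ℤ) → SL_3(R)`. -/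
def redSL (R : Type*) [CommRing R] : SL3 ℤ →* SL3 R :=
  Matrix.SpecialLinearGroup.map (Int.castRingHom R)

/-- The weight `x` is strongly regular: it pairs to at least `2` with both simple coroots. -/
def StronglyRegular (x : Fin 3 → ℤ) : Prop := 2 ≤ x 0 - x 1 ∧ 2 ≤ x 1 - x 2

/-- The half-sum `ρ` of the positive roots of `SL_3`, as the character
`diag(t₀,t₁,t₂) ↦ t₀ t₂⁻¹` of the diagonal torus. -/
def rho : Fin 3 → ℤ := ![1, 0, -1]

section Representations

variable {V : Type*} [AddCommGroup V] [Module ℚ V] (ρ : Representation ℚ (SL3 ℚ) V)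

/-- Matrix coefficients are polynomial functions of the entries of the matrix. -/
def PolyCoeff : Prop :=
  ∀ (f : V →ₗ[ℚ] ℚ) (x : V), ∃ P : MvPolynomial (Fin 3 × Fin 3) ℚ, ∀ g : SL3 ℚ,
    f (ρ g x) = MvPolynomial.eval (fun ij => g ij.1 ij.2) P

/-- `ρ` is (the action of the group of rational points on) an irreducible algebraic
representation of `SL_3` over `ℚ` of highest weight `lam`: it is finite dimensional, its matrix
coefficients are polynomials in the entries of `g`, it has no proper nonzero invariant subspace,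
and it contains a nonzero vector on which upper triangular matrices act through `lam`. -/
structure IsIrrepOfHighestWeight (lam : Fin 3 → ℤ) : Prop where
  finite : FiniteDimensional ℚ V
  algebraic : PolyCoeff ρ
  irreducible : ρ.IsIrreducible
  highest : ∃ v : V, v ≠ 0 ∧ ∀ b : SL3 ℚ, (∀ i j : Fin 3, j < i → b i j = 0) →
    ρ b v = (∏ i, b i i ^ lam i) • v

/-- The subgroup `L` of `V` is stable under `SL_3(ℤ)`. -/
def LatStable (L : Submodule ℤ V) : Prop := ∀ g : SL3 ℤ, ∀ x ∈ L, ρ (redSL ℚ g) x ∈ L

variable {ρ}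

/-- The action of `SL_3(ℤ)` on a stable lattice. -/
def latAct {L : Submodule ℤ V} (hL : LatStable ρ L) : Representation ℤ (SL3 ℤ) L where
  toFun g := ((ρ (redSL ℚ g)).restrictScalars ℤ).restrict (hL g)
  map_one' := by
    ext1 x
    apply Subtype.ext
    change ρ (redSL ℚ 1) (x : V) = x
    rw [map_one, map_one]
    rfl
  map_mul' g h := by
    ext1 x
    apply Subtype.ext
    change ρ (redSL ℚ (g * h)) (x : V) = ρ (redSL ℚ g) (ρ (redSL ℚ h) (x : V))
    rw [map_mul, map_mul]
    rfl

/-- The representation of `SL_3(ℤ)` on `k ⊗ L`, for a stable lattice `L`. -/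
noncomputable def latRep (k : Type*) [CommRing k] {L : Submodule ℤ V} (hL : LatStable ρ L) :
    Representation k (SL3 ℤ) (k ⊗[ℤ] L) where
  toFun g := (latAct hL g).baseChange k
  map_one' := by
    rw [map_one]
    exact LinearMap.baseChange_id
  map_mul' g h := by
    rw [map_mul]
    exact LinearMap.baseChange_comp _ _

end Representations

end Pool.Agent.SL3
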