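import Pool.Agent.SL3.Lattice

/-!
# Irreducible algebraic representations of `SL_3` with a given highest weight

We define when a representation of `SL_3(ℚ)` is (the group of rational points of) an irreducible
algebraic representation of highest weight `lam`, and show that for `lam = (3,1,0)` it is
isomorphic to `tens ℚ`.
-/

open Matrix TensorProduct

set_option linter.unusedSimpArgs false
set_option linter.unnecessarySeqFocus false

namespace Pool.Agent.SL3

section Abstract

variable {k : Type*} [Field k] {G : Type*} [Group G]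
  {V W : Type*} [AddCommGroup V] [Module k V] [AddCommGroup W] [Module k W]

theorem irr_submodule {ρ : Representation k G V} (h : ρ.IsIrreducible) (U : Submodule k V)
    (hU : ∀ g, ∀ x ∈ U, ρ g x ∈ U) : U = ⊥ ∨ U = ⊤ := by
  rcases h.eq_bot_or_eq_top (⟨U, fun g x hx => hU g x hx⟩ : Subrepresentation ρ) with h1 | h1
  · left
    exact congrArg Subrepresentation.toSubmodule h1
  · right
    exact congrArg Subrepresentation.toSubmodule h1

/-- The matrix coefficient map `x ↦ (g ↦ ℓ(ρ(g) x))`. -/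
def coeffMap (ρ : Representation k G V) (l : V →ₗ[k] k) : V →ₗ[k] (G → k) :=
  LinearMap.pi (fun g => l ∘ₗ ρ g)

theorem coeffMap_apply (ρ : Representation k G V) (l : V →ₗ[k] k) (x : V) (g : G) :
    coeffMap ρ l x g = l (ρ g x) := rfl

theorem coeffMap_injective {ρ : Representation k G V} (h : ρ.IsIrreducible) {l : V →ₗ[k] k}
    {v : V} (hv : l v ≠ 0) : Function.Injective (coeffMap ρ l) := by
  rw [← LinearMap.ker_eq_bot]
  refine (irr_submodule h (LinearMap.ker (coeffMap ρ l)) ?_).resolve_right ?_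
  · intro g x hx
    rw [LinearMap.mem_ker] at hx ⊢
    funext g'
    rw [coeffMap_apply, ← Module.End.mul_apply, ← map_mul]
    exact congrFun hx (g' * g)
  · intro htop
    have h1 : v ∈ LinearMap.ker (coeffMap ρ l) := by rw [htop]; exact Submodule.mem_top
    rw [LinearMap.mem_ker] at h1
    have h2 := congrFun h1 1
    rw [coeffMap_apply, map_one] at h2
    exact hv h2

theorem coeffMap_range {ρ : Representation k G V} (h : ρ.IsIrreducible) {l : V →ₗ[k] k}
    {v : V} (hv : v ≠ 0) {φ : G → k} (hφ : ∀ g, l (ρ g v) = φ g) :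
    LinearMap.range (coeffMap ρ l) = Submodule.span k (Set.range fun h : G => fun g => φ (g * h)) := by
  have hspan : Submodule.span k (Set.range fun h : G => ρ h v) = ⊤ := by
    refine (irr_submodule h _ ?_).resolve_left ?_
    · intro g x hx
      induction hx using Submodule.span_induction with
      | mem x hx =>
        obtain ⟨h', rfl⟩ := hx
        apply Submodule.subset_span
        exact ⟨g * h', by simp only [map_mul]; rfl⟩
      | zero => rw [map_zero]; exact zero_mem _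
      | add x y _ _ hx hy => rw [map_add]; exact add_mem hx hy
      | smul c x _ hx => rw [map_smul]; exact Submodule.smul_mem _ _ hx
    · intro hbot
      rw [Submodule.span_eq_bot] at hbot
      have := hbot (ρ 1 v) ⟨1, rfl⟩
      rw [map_one] at this
      exact hv this
  rw [← Submodule.map_top, ← hspan, Submodule.map_span]
  congr 1
  ext F
  constructor
  · rintro ⟨_, ⟨h', rfl⟩, rfl⟩
    refine ⟨h', ?_⟩
    funext g
    change φ (g * h') = coeffMap ρ l (ρ h' v) g
    rw [coeffMap_apply, ← hφ, map_mul]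
    rfl
  · rintro ⟨h', rfl⟩
    refine ⟨_, ⟨h', rfl⟩, ?_⟩
    funext g
    change coeffMap ρ l (ρ h' v) g = φ (g * h')
    rw [coeffMap_apply, ← hφ, map_mul]
    rfl

/-- Two irreducible representations with a common nonzero matrix coefficient are isomorphic. -/
theorem exists_iso_of_coeff {ρ : Representation k G V} {σ : Representation k G W}
    (hρ : ρ.IsIrreducible) (hσ : σ.IsIrreducible) {l : V →ₗ[k] k} {m : W →ₗ[k] k} {v : V} {w : W}
    {φ : G → k} (h1 : ∀ g, l (ρ g v) = φ g) (h2 : ∀ g, m (σ g w) = φ g) (hφ : φ 1 ≠ 0) :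
    ∃ e : V ≃ₗ[k] W, ∀ g x, e (ρ g x) = σ g (e x) := by
  have hlv : l v ≠ 0 := by
    have := h1 1
    rw [map_one] at this
    rw [show l v = φ 1 from this]
    exact hφ
  have hmw : m w ≠ 0 := by
    have := h2 1
    rw [map_one] at this
    rw [show m w = φ 1 from this]
    exact hφ
  have hv : v ≠ 0 := by
    rintro rfl
    exact hlv (map_zero l)
  have hw : w ≠ 0 := by
    rintro rfl
    exact hmw (map_zero m)
  have i1 := coeffMap_injective hρ hlv
  have i2 := coeffMap_injective hσ hmw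
  have hr : LinearMap.range (coeffMap ρ l) = LinearMap.range (coeffMap σ m) := by
    rw [coeffMap_range hρ hv h1, coeffMap_range hσ hw h2]
  let e : V ≃ₗ[k] W := (LinearEquiv.ofInjective _ i1).trans
    ((LinearEquiv.ofEq _ _ hr).trans (LinearEquiv.ofInjective _ i2).symm)
  have he : ∀ x, coeffMap σ m (e x) = coeffMap ρ l x := by
    intro x
    have h3 := LinearEquiv.apply_symm_apply (LinearEquiv.ofInjective _ i2)
      ((LinearEquiv.ofEq _ _ hr) ((LinearEquiv.ofInjective _ i1) x))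
    have h4 := congrArg Subtype.val h3
    rw [LinearEquiv.ofInjective_apply] at h4
    exact h4
  refine ⟨e, fun g x => ?_⟩
  apply i2
  rw [he]
  funext g'
  rw [coeffMap_apply, coeffMap_apply, ← Module.End.mul_apply, ← map_mul,
    ← Module.End.mul_apply, ← map_mul]
  exact (congrFun (he x) (g' * g)).symm

end Abstract

section Poly

open Polynomial

theorem eval_aeval_poly {σ : Type*} (F : σ → ℚ[X]) (P : MvPolynomial σ ℚ) (u : ℚ) :
    (MvPolynomial.aeval F P).eval u = MvPolynomial.eval (fun i => (F i).eval u) P := by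
  induction P using MvPolynomial.induction_on with
  | C a => simp
  | add p q hp hq => simp only [map_add, Polynomial.eval_add, hp, hq]
  | mul_X p i hp => simp only [map_mul, Polynomial.eval_mul, hp, MvPolynomial.aeval_X,
      MvPolynomial.eval_X]

theorem poly_eq_of_ne_zero {q r : ℚ[X]} (h : ∀ u, u ≠ 0 → q.eval u = r.eval u) : q = r := by
  apply Polynomial.eq_of_infinite_eval_eq
  refine Set.Infinite.mono (s := {u : ℚ | u ≠ 0}) (fun u hu => h u hu) ?_
  exact (Set.finite_singleton (0 : ℚ)).infinite_compl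

end Poly

section Cells

/-- The matrix `(1, 0, 0; x, 1, 0; y, z, 1)`. -/
def lowN (x y z : ℚ) : SL3 ℚ :=
  ⟨!![1, 0, 0; x, 1, 0; y, z, 1], by simp [Matrix.det_fin_three]⟩

/-- The matrix `diag(s, 1, s⁻¹)`. -/
def torS (s : ℚ) (hs : s ≠ 0) : SL3 ℚ :=
  ⟨!![s, 0, 0; 0, 1, 0; 0, 0, s⁻¹], by simp [Matrix.det_fin_three, hs]⟩

theorem torS_mul_lowN (s : ℚ) (hs : s ≠ 0) (x y z : ℚ) :
    torS s hs * lowN x y z = lowN (s⁻¹ * x) (s⁻¹ ^ 2 * y) (s⁻¹ * z) * torS s hs := by
  apply Subtype.ext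
  rw [Matrix.SpecialLinearGroup.coe_mul, Matrix.SpecialLinearGroup.coe_mul]
  simp only [torS, lowN]
  ext i j
  fin_cases i <;> fin_cases j <;> simp [Matrix.mul_apply, Fin.sum_univ_three] <;> field_simp

variable {V : Type*} [AddCommGroup V] [Module ℚ V]

open Polynomial in
theorem exists_functional {ρ : Representation ℚ (SL3 ℚ) V} {v : V} (hv : v ≠ 0)
    (hpoly : PolyCoeff ρ)
    (hb : ∀ b : SL3 ℚ, (∀ i j : Fin 3, j < i → b i j = 0) → ρ b v = (b 0 0 ^ 3 * b 1 1) • v) :
    ∃ l : V →ₗ[ℚ] ℚ, ∀ x y z, l (ρ (lowN x y z) v) = 1 := by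
  -- a functional not vanishing on `v`
  obtain ⟨f₀, hf₀⟩ : ∃ f : V →ₗ[ℚ] ℚ, f v ≠ 0 := by
    by_contra hcon
    push Not at hcon
    exact hv ((Module.forall_dual_apply_eq_zero_iff ℚ v).mp hcon)
  obtain ⟨f, hf⟩ : ∃ f : V →ₗ[ℚ] ℚ, f v = 1 := by
    refine ⟨(f₀ v)⁻¹ • f₀, ?_⟩
    rw [LinearMap.smul_apply, smul_eq_mul, inv_mul_cancel₀ hf₀]
  obtain ⟨P, hP⟩ := hpoly f v
  let U : Submodule ℚ V := Submodule.span ℚ
    (Set.range fun t : ℚ × ℚ × ℚ => ρ (lowN t.1 t.2.1 t.2.2) v - v)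
  have htor : ∀ s (hs : s ≠ 0), ρ (torS s hs) v = s ^ 3 • v := by
    intro s hs
    rw [hb]
    · simp [torS]
    · intro i j hij
      fin_cases i <;> fin_cases j <;> first | exact absurd hij (by decide) | simp [torS]
  have hvU : v ∉ U := by
    intro hvU
    have key : ∀ w ∈ U, ∃ q : ℚ[X], q.eval 0 = 0 ∧
        ∀ u (hu : u ≠ 0), u ^ 3 * f (ρ (torS u⁻¹ (inv_ne_zero hu)) w) = q.eval u := by
      intro w hw
      induction hw using Submodule.span_induction with
      | mem w hw =>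
        obtain ⟨⟨x, y, z⟩, rfl⟩ := hw
        let F : Fin 3 × Fin 3 → ℚ[X] := fun ij =>
          (!![1, 0, 0; C x * X, 1, 0; C y * X ^ 2, C z * X, 1] : Matrix (Fin 3) (Fin 3) ℚ[X])
            ij.1 ij.2
        have hF : ∀ u, (fun ij => (F ij).eval u)
            = fun ij : Fin 3 × Fin 3 => (lowN (u * x) (u ^ 2 * y) (u * z)) ij.1 ij.2 := by
          intro u
          funext ij
          obtain ⟨i, j⟩ := ij
          simp only [F, lowN]
          fin_cases i <;> fin_cases j <;> simp <;> ring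
        have hR : ∀ u, (MvPolynomial.aeval F P).eval u
            = f (ρ (lowN (u * x) (u ^ 2 * y) (u * z)) v) := by
          intro u
          rw [eval_aeval_poly, hF, hP]
        refine ⟨MvPolynomial.aeval F P - 1, ?_, ?_⟩
        · rw [Polynomial.eval_sub, hR]
          have h1 : lowN (0 * x) (0 ^ 2 * y) (0 * z) = 1 := by
            apply Subtype.ext
            ext i j
            simp only [lowN]
            fin_cases i <;> fin_cases j <;> simp
          rw [h1, map_one]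
          simp [hf]
        · intro u hu
          rw [Polynomial.eval_sub, hR, map_sub, map_sub, htor]
          have h2 : ρ (torS u⁻¹ (inv_ne_zero hu)) (ρ (lowN x y z) v)
              = (u⁻¹) ^ 3 • ρ (lowN (u * x) (u ^ 2 * y) (u * z)) v := by
            rw [← Module.End.mul_apply, ← map_mul, torS_mul_lowN, map_mul, Module.End.mul_apply,
              htor, map_smul, inv_inv]
          rw [h2, map_smul, map_smul, hf]
          simp only [smul_eq_mul, Polynomial.eval_one]
          field_simp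
      | zero => exact ⟨0, by simp, fun u hu => by simp⟩
      | add w₁ w₂ _ _ h1 h2 =>
        obtain ⟨q₁, h1a, h1b⟩ := h1
        obtain ⟨q₂, h2a, h2b⟩ := h2
        refine ⟨q₁ + q₂, by simp [h1a, h2a], fun u hu => ?_⟩
        rw [map_add, map_add, mul_add, h1b u hu, h2b u hu, Polynomial.eval_add]
      | smul c w _ h1 =>
        obtain ⟨q, ha, hb'⟩ := h1
        refine ⟨C c * q, by simp [ha], fun u hu => ?_⟩
        rw [map_smul, map_smul, smul_eq_mul, mul_left_comm, hb' u hu, Polynomial.eval_mul,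
          Polynomial.eval_C]
    obtain ⟨q, hq0, hq⟩ := key v hvU
    have h1 : q = 1 := by
      apply poly_eq_of_ne_zero
      intro u hu
      rw [← hq u hu, htor, map_smul, hf, smul_eq_mul, mul_one, Polynomial.eval_one,
        ← mul_pow, mul_inv_cancel₀ hu, one_pow]
    rw [h1, Polynomial.eval_one] at hq0
    exact one_ne_zero hq0
  obtain ⟨l₀, hl₀, hker⟩ := Submodule.exists_le_ker_of_notMem hvU
  refine ⟨(l₀ v)⁻¹ • l₀, fun x y z => ?_⟩
  have h1 : l₀ (ρ (lowN x y z) v - v) = 0 := by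
    have : ρ (lowN x y z) v - v ∈ U := Submodule.subset_span ⟨(x, y, z), rfl⟩
    exact hker this
  rw [map_sub, sub_eq_zero] at h1
  rw [LinearMap.smul_apply, h1, smul_eq_mul, inv_mul_cancel₀ hl₀]

/-- The leading coefficient function `g ↦ g₀₀² (g₀₀ g₁₁ - g₀₁ g₁₀)`. -/
def phi (g : SL3 ℚ) : ℚ := g 0 0 ^ 2 * (g 0 0 * g 1 1 - g 0 1 * g 1 0)

theorem functional_bigcell {ρ : Representation ℚ (SL3 ℚ) V} {v : V} {l : V →ₗ[ℚ] ℚ}
    (hl : ∀ x y z, l (ρ (lowN x y z) v) = 1)
    (hb : ∀ b : SL3 ℚ, (∀ i j : Fin 3, j < i → b i j = 0) → ρ b v = (b 0 0 ^ 3 * b 1 1) • v)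
    (g : SL3 ℚ) (h0 : g 0 0 ≠ 0) (h1 : g 0 0 * g 1 1 - g 0 1 * g 1 0 ≠ 0) :
    l (ρ g v) = phi g := by
  set D := g 0 0 * g 1 1 - g 0 1 * g 1 0 with hD
  set x := g 1 0 / g 0 0 with hx
  set y := g 2 0 / g 0 0 with hy
  set z := (g 0 0 * g 2 1 - g 0 1 * g 2 0) / D with hz
  have hinv : lowN x y z * lowN (-x) (x * z - y) (-z) = 1 := by
    apply Subtype.ext
    rw [Matrix.SpecialLinearGroup.coe_mul, Matrix.SpecialLinearGroup.coe_one]
    simp only [lowN]
    ext i j
    fin_cases i <;> fin_cases j <;> simp [Matrix.mul_apply, Fin.sum_univ_three] <;> ring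
  let b : SL3 ℚ := lowN (-x) (x * z - y) (-z) * g
  have hg : g = lowN x y z * b := by
    rw [← mul_assoc, hinv, one_mul]
  have e : ∀ i j, b i j = ∑ c, (lowN (-x) (x * z - y) (-z)) i c * g c j := by
    intro i j
    change ((lowN (-x) (x * z - y) (-z) * g : SL3 ℚ) : M3 ℚ) i j = _
    rw [Matrix.SpecialLinearGroup.coe_mul, Matrix.mul_apply]
  have hzD : z * D = g 0 0 * g 2 1 - g 0 1 * g 2 0 := by
    rw [hz, div_mul_cancel₀ _ h1]
  have hx0 : x * g 0 0 = g 1 0 := by rw [hx, div_mul_cancel₀ _ h0]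
  have hy0 : y * g 0 0 = g 2 0 := by rw [hy, div_mul_cancel₀ _ h0]
  have hup : ∀ i j : Fin 3, j < i → b i j = 0 := by
    intro i j hij
    rw [e, Fin.sum_univ_three]
    fin_cases i <;> fin_cases j <;> first | exact absurd hij (by decide) | skip
    · simp [lowN]
      linear_combination -hx0
    · simp [lowN]
      linear_combination z * hx0 - hy0
    · simp [lowN]
      apply mul_left_cancel₀ h0
      rw [mul_zero]
      rw [hD] at hzD
      linear_combination z * g 0 1 * hx0 - g 0 1 * hy0 - hzD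
  have hb0 : b 0 0 = g 0 0 := by
    rw [e, Fin.sum_univ_three]
    simp [lowN]
  have hb1 : g 0 0 * b 1 1 = D := by
    rw [e, Fin.sum_univ_three]
    simp [lowN]
    rw [hD]
    linear_combination -g 0 1 * hx0
  rw [hg, map_mul, Module.End.mul_apply, hb b hup, map_smul, map_smul, hl, smul_eq_mul, mul_one,
    ← hg, hb0, phi, ← hD, ← hb1]
  ring

/-- The matrix `(1, s, s²; 0, 1, 2s; 0, 0, 1)`. -/
def upM (s : ℚ) : SL3 ℚ :=
  ⟨!![1, s, s ^ 2; 0, 1, 2 * s; 0, 0, 1], by simp [Matrix.det_fin_three]⟩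

open Polynomial in
theorem functional_eq {ρ : Representation ℚ (SL3 ℚ) V} {v : V} {l : V →ₗ[ℚ] ℚ}
    (hpoly : PolyCoeff ρ)
    (hl : ∀ x y z, l (ρ (lowN x y z) v) = 1)
    (hb : ∀ b : SL3 ℚ, (∀ i j : Fin 3, j < i → b i j = 0) → ρ b v = (b 0 0 ^ 3 * b 1 1) • v)
    (g : SL3 ℚ) : l (ρ g v) = phi g := by
  obtain ⟨P, hP⟩ := hpoly l v
  have hdet : g 0 0 * g 1 1 * g 2 2 - g 0 0 * g 1 2 * g 2 1 - g 0 1 * g 1 0 * g 2 2
      + g 0 1 * g 1 2 * g 2 0 + g 0 2 * g 1 0 * g 2 1 - g 0 2 * g 1 1 * g 2 0 = 1 := by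
    have := g.2
    rw [Matrix.det_fin_three] at this
    exact this
  let E : Fin 3 → Fin 3 → ℚ[X] := fun i j =>
    ∑ c, (!![1, X, X ^ 2; 0, 1, 2 * X; 0, 0, 1] : Matrix (Fin 3) (Fin 3) ℚ[X]) i c * C (g c j)
  have hE : ∀ s i j, (E i j).eval s = (upM s * g) i j := by
    intro s i j
    rw [Matrix.SpecialLinearGroup.coe_mul, Matrix.mul_apply]
    simp only [E, upM, Fin.sum_univ_three]
    fin_cases i <;> simp <;> ring
  let Dp : ℚ[X] := E 0 0 * E 1 1 - E 0 1 * E 1 0
  let A : ℚ[X] := MvPolynomial.aeval (fun ij : Fin 3 × Fin 3 => E ij.1 ij.2) P - E 0 0 ^ 2 * Dp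
  have hA : ∀ s, A.eval s = l (ρ (upM s * g) v) - phi (upM s * g) := by
    intro s
    simp only [A, Dp, Polynomial.eval_sub, Polynomial.eval_mul, Polynomial.eval_pow, hE]
    rw [eval_aeval_poly, hP]
    simp only [hE, phi]
  have hprod : A * (E 0 0 * Dp) = 0 := by
    apply Polynomial.funext
    intro s
    rw [Polynomial.eval_mul, Polynomial.eval_mul, Polynomial.eval_zero]
    by_cases h0 : (upM s * g) 0 0 = 0
    · rw [hE, h0, zero_mul, mul_zero]
    · by_cases h1 : (upM s * g) 0 0 * (upM s * g) 1 1 - (upM s * g) 0 1 * (upM s * g) 1 0 = 0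
      · have : Dp.eval s = 0 := by
          simp only [Dp, Polynomial.eval_sub, Polynomial.eval_mul, hE]
          exact h1
        rw [this, mul_zero, mul_zero]
      · rw [hA, functional_bigcell hl hb _ h0 h1, sub_self, zero_mul]
  have hent : ∀ s i j, (upM s * g) i j = ∑ c, (upM s) i c * g c j := by
    intro s i j
    rw [Matrix.SpecialLinearGroup.coe_mul, Matrix.mul_apply]
  have hE0 : E 0 0 ≠ 0 := by
    intro h
    have e : ∀ s : ℚ, g 0 0 + s * g 1 0 + s ^ 2 * g 2 0 = 0 := by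
      intro s
      have h1 := hE s 0 0
      rw [h, Polynomial.eval_zero, hent, Fin.sum_univ_three] at h1
      simp [upM] at h1
      exact h1.symm
    have e0 := e 0
    have e1 := e 1
    have e2 := e (-1)
    have a0 : g 0 0 = 0 := by linear_combination e0
    have a2 : g 2 0 = 0 := by linear_combination (e1 + e2) / 2 - e0
    have a1 : g 1 0 = 0 := by linear_combination (e1 - e2) / 2
    rw [a0, a1, a2] at hdet
    norm_num at hdet
  have hD0 : Dp ≠ 0 := by
    intro h
    have e : ∀ s : ℚ, (g 0 0 * g 1 1 - g 0 1 * g 1 0) + 2 * s * (g 0 0 * g 2 1 - g 0 1 * g 2 0)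
        + s ^ 2 * (g 1 0 * g 2 1 - g 1 1 * g 2 0) = 0 := by
      intro s
      have h1 : Dp.eval s = (upM s * g) 0 0 * (upM s * g) 1 1 - (upM s * g) 0 1 * (upM s * g) 1 0 := by
        simp only [Dp, Polynomial.eval_sub, Polynomial.eval_mul, hE]
      rw [h, Polynomial.eval_zero] at h1
      simp only [hent, Fin.sum_univ_three] at h1
      simp [upM] at h1
      linear_combination -h1
    have e0 := e 0
    have e1 := e 1
    have e2 := e (-1)
    have a0 : g 0 0 * g 1 1 - g 0 1 * g 1 0 = 0 := by linear_combination e0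
    have a2 : g 1 0 * g 2 1 - g 1 1 * g 2 0 = 0 := by linear_combination (e1 + e2) / 2 - e0
    have a1 : g 0 0 * g 2 1 - g 0 1 * g 2 0 = 0 := by linear_combination (e1 - e2) / 4
    have : (0 : ℚ) = 1 := by
      linear_combination hdet - g 2 2 * a0 - g 0 2 * a2 + g 1 2 * a1
    norm_num at this
  have hA0 : A = 0 := by
    rcases mul_eq_zero.mp hprod with h | h
    · exact h
    · exact absurd h (mul_ne_zero hE0 hD0)
  have h1 := hA 0
  have h2 : upM 0 * g = g := by
    have : upM 0 = 1 := by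
      apply Subtype.ext
      ext i j
      simp only [upM]
      fin_cases i <;> fin_cases j <;> simp
    rw [this, one_mul]
  rw [hA0, Polynomial.eval_zero, h2] at h1
  exact (sub_eq_zero.mp h1.symm)

end Cells

section Model

/-- Evaluation of the coordinate of `e_0² ⊗ e_2^*`. -/
def coord0 : tens ℚ →ₗ[ℚ] ℚ where
  toFun T := T.1 2 0 0
  map_add' _ _ := rfl
  map_smul' _ _ := rfl

theorem wvec_mem (R : Type*) [CommRing R] {i j : Fin 3} (h : i ≠ j) : wvec R i j ∈ tens R := by
  refine ⟨fun l a b => ?_, fun a => ?_⟩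
  · simp only [wvec]
    congr 1
    exact propext ⟨fun h => ⟨h.1, h.2.2, h.2.1⟩, fun h => ⟨h.1, h.2.2, h.2.1⟩⟩
  · refine Finset.sum_eq_zero (fun l _ => ?_)
    simp only [wvec]
    rw [if_neg]
    rintro ⟨h1, _, h3⟩
    exact h (h3.symm.trans h1)

/-- The highest weight vector `e_0² ⊗ e_2^*`. -/
def hwv : tens ℚ := ⟨wvec ℚ 0 2, wvec_mem ℚ (by decide)⟩

theorem actFun_wvec {R : Type*} [CommRing R] (g : SL3 R) (i j l a b : Fin 3) :
    actFun g (wvec R i j) l a b = (g⁻¹ : SL3 R) j l * (g a i * g b i) := by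
  have h1 : ∀ c, c ≠ j → (wvec R i j) c = 0 := by
    intro c hc
    ext x y
    simp [wvec, hc]
  have h2 : (wvec R i j) j = Matrix.single i i 1 := by
    ext x y
    simp only [wvec, true_and, Matrix.single_apply]
    congr 1
    exact propext ⟨fun h => ⟨h.1.symm, h.2.symm⟩, fun h => ⟨h.1.symm, h.2.symm⟩⟩
  rw [actFun_apply, Finset.sum_eq_single j]
  · rw [Matrix.smul_apply, smul_eq_mul, h2, Matrix.mul_apply]
    congr 1
    rw [Finset.sum_eq_single i]
    · rw [Matrix.mul_single_apply_same, mul_one, Matrix.transpose_apply]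
    · intro c _ hc
      rw [Matrix.mul_single_apply_of_ne _ _ _ _ _ hc, zero_mul]
    · intro h
      exact absurd (Finset.mem_univ _) h
  · intro c _ hc
    rw [h1 c hc, mul_zero, zero_mul, smul_zero]
  · intro h
    exact absurd (Finset.mem_univ _) h

theorem coord0_act (g : SL3 ℚ) : coord0 (act ℚ g hwv) = phi g := by
  change actFun g (wvec ℚ 0 2) 2 0 0 = phi g
  rw [actFun_wvec]
  have h1 : (g⁻¹ : SL3 ℚ) 2 2 = g 0 0 * g 1 1 - g 0 1 * g 1 0 := by
    rw [Matrix.SpecialLinearGroup.coe_inv, Matrix.adjugate_fin_three]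
    simp
  rw [h1, phi]
  ring

theorem irr_of_forall {k : Type*} [Field k] {G : Type*} [Group G] {V : Type*} [AddCommGroup V]
    [Module k V] [Nontrivial V] {ρ : Representation k G V}
    (h : ∀ U : Submodule k V, (∀ g, ∀ x ∈ U, ρ g x ∈ U) → U = ⊥ ∨ U = ⊤) : ρ.IsIrreducible := by
  have hnt : Nontrivial (Subrepresentation ρ) := by
    refine ⟨⊥, ⊤, fun heq => ?_⟩
    have h1 : (⊥ : Submodule k V) = ⊤ := congrArg Subrepresentation.toSubmodule heq
    exact bot_ne_top h1
  refine ⟨fun U => ?_⟩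
  rcases h U.toSubmodule (fun g x hx => U.apply_mem_toSubmodule g hx) with h1 | h1
  · left
    exact Subrepresentation.toSubmodule_injective h1
  · right
    exact Subrepresentation.toSubmodule_injective h1

instance {k : Type*} [Field k] : Nontrivial (tens k) :=
  Module.nontrivial_of_finrank_pos (R := k) (by rw [finrank_tens]; norm_num)

theorem tens_irr {k : Type*} [Field k] (h6 : (6 : k) ≠ 0) (U : Submodule k (tens k))
    (hU : ∀ g : SL3 ℤ, ∀ x ∈ U, actZ k g x ∈ U) : U = ⊥ ∨ U = ⊤ := by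
  by_cases hbot : U = ⊥
  · left
    exact hbot
  right
  let N : Submodule k (Fin 3 → M3 k) := U.map (tens k).subtype
  have hN : StableZ N := by
    rintro g _ ⟨y, hy, rfl⟩
    exact ⟨actZ k g y, hU g y hy, rfl⟩
  have hle : N ≤ tens k := by
    rintro _ ⟨y, _, rfl⟩
    exact y.2
  have hNne : N ≠ ⊥ := by
    intro h
    apply hbot
    rw [Submodule.eq_bot_iff]
    intro x hx
    have : (tens k).subtype x ∈ N := ⟨x, hx, rfl⟩
    rw [h, Submodule.mem_bot] at this
    exact Subtype.ext this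
  have hall := eq_tens h6 hN hle hNne
  rw [Submodule.eq_top_iff']
  intro y
  have h2 : y.1 ∈ N := by rw [hall]; exact y.2
  obtain ⟨z, hz, hzy⟩ := h2
  have : z = y := Subtype.ext hzy
  rw [← this]
  exact hz

/-- Modulo `p ≥ 5` the module `tens k` is irreducible under `SL_3(ℤ)`. -/
theorem actZ_irreducible {k : Type*} [Field k] (h6 : (6 : k) ≠ 0) : (actZ k).IsIrreducible :=
  irr_of_forall (tens_irr h6)

theorem act_irreducible : (act ℚ).IsIrreducible :=
  irr_of_forall (fun U hU => tens_irr (by norm_num) U (fun g x hx => hU (redSL ℚ g) x hx))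

end Model

section Main

variable {V : Type*} [AddCommGroup V] [Module ℚ V]

theorem upper_det {b : SL3 ℚ} (hb : ∀ i j : Fin 3, j < i → b i j = 0) :
    b 0 0 * b 1 1 * b 2 2 = 1 := by
  have h := b.2
  rw [Matrix.det_fin_three, hb 1 0 (by decide), hb 2 0 (by decide), hb 2 1 (by decide)] at h
  linear_combination h

theorem upper_char {b : SL3 ℚ} (hb : ∀ i j : Fin 3, j < i → b i j = 0) {lam : Fin 3 → ℤ}
    (h1 : lam 0 - lam 1 = 2) (h2 : lam 1 - lam 2 = 1) :
    ∏ i, b i i ^ lam i = b 0 0 ^ 3 * b 1 1 := by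
  have hd := upper_det hb
  have h0 : b 0 0 ≠ 0 := by
    intro h
    rw [h, zero_mul, zero_mul] at hd
    exact zero_ne_one hd
  have h1' : b 1 1 ≠ 0 := by
    intro h
    rw [h, mul_zero, zero_mul] at hd
    exact zero_ne_one hd
  have h2' : b 2 2 ≠ 0 := by
    intro h
    rw [h, mul_zero] at hd
    exact zero_ne_one hd
  rw [Fin.prod_univ_three, show lam 0 = lam 2 + 3 by omega, show lam 1 = lam 2 + 1 by omega,
    zpow_add₀ h0, zpow_add₀ h1', zpow_one]
  have h3 : b 0 0 ^ lam 2 * b 1 1 ^ lam 2 * b 2 2 ^ lam 2 = 1 := by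
    rw [← mul_zpow, ← mul_zpow, hd, _root_.one_zpow]
  have h4 : b 0 0 ^ (3 : ℤ) = b 0 0 ^ 3 := by
    norm_cast
  rw [h4]
  linear_combination (b 0 0 ^ 3 * b 1 1) * h3

/-- Every irreducible algebraic representation of `SL_3` over `ℚ` of highest weight `(3,1,0)` is
isomorphic to `tens ℚ`. -/
theorem exists_iso_tens {lam : Fin 3 → ℤ} (h1 : lam 0 - lam 1 = 2) (h2 : lam 1 - lam 2 = 1)
    {ρ : Representation ℚ (SL3 ℚ) V} (h : IsIrrepOfHighestWeight ρ lam) :
    ∃ e : V ≃ₗ[ℚ] tens ℚ, ∀ g x, e (ρ g x) = act ℚ g (e x) := by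
  obtain ⟨v, hv, hb⟩ := h.highest
  have hb' : ∀ b : SL3 ℚ, (∀ i j : Fin 3, j < i → b i j = 0) → ρ b v = (b 0 0 ^ 3 * b 1 1) • v := by
    intro b hbu
    rw [hb b hbu, upper_char hbu h1 h2]
  obtain ⟨l, hl⟩ := exists_functional hv h.algebraic hb'
  refine exists_iso_of_coeff h.irreducible act_irreducible (φ := phi) (l := l) (m := coord0)
    (v := v) (w := hwv) (functional_eq h.algebraic hl hb') coord0_act ?_
  simp [phi]

/-- Reduction modulo `p ≥ 5` of an arbitrary `SL_3(ℤ)`-stable lattice in an arbitrary irreducible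
representation of highest weight `(3,1,0)`. -/
theorem reduction {lam : Fin 3 → ℤ} (h1 : lam 0 - lam 1 = 2) (h2 : lam 1 - lam 2 = 1)
    {ρ : Representation ℚ (SL3 ℚ) V} (h : IsIrrepOfHighestWeight ρ lam)
    (L : Submodule ℤ V) [Submodule.IsLattice ℚ L] (hL : LatStable ρ L)
    (k : Type*) [Field k] (p : ℕ) [CharP k p] (hp : p.Prime) (hp5 : 5 ≤ p) :
    ∃ φ : (k ⊗[ℤ] L) ≃ₗ[k] tens k, ∀ g x, φ (latRep k hL g x) = actZ k g (φ x) := by
  obtain ⟨e, he⟩ := exists_iso_tens h1 h2 h
  exact lattice_reduction e he L hL k p hp hp5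

end Main

section Existence

/-- Polynomial functions on `SL_3(ℚ)`. -/
def IsPolyFun (F : SL3 ℚ → ℚ) : Prop :=
  ∃ P : MvPolynomial (Fin 3 × Fin 3) ℚ, ∀ g : SL3 ℚ,
    F g = MvPolynomial.eval (fun ij => g ij.1 ij.2) P

theorem IsPolyFun.const (c : ℚ) : IsPolyFun (fun _ => c) :=
  ⟨MvPolynomial.C c, fun g => by simp⟩

theorem IsPolyFun.entry (i j : Fin 3) : IsPolyFun (fun g => g i j) :=
  ⟨MvPolynomial.X (i, j), fun g => by simp⟩

theorem IsPolyFun.add {F G : SL3 ℚ → ℚ} (hF : IsPolyFun F) (hG : IsPolyFun G) :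
    IsPolyFun (fun g => F g + G g) := by
  obtain ⟨P, hP⟩ := hF
  obtain ⟨Q, hQ⟩ := hG
  exact ⟨P + Q, fun g => by rw [map_add, ← hP, ← hQ]⟩

theorem IsPolyFun.sub {F G : SL3 ℚ → ℚ} (hF : IsPolyFun F) (hG : IsPolyFun G) :
    IsPolyFun (fun g => F g - G g) := by
  obtain ⟨P, hP⟩ := hF
  obtain ⟨Q, hQ⟩ := hG
  exact ⟨P - Q, fun g => by rw [map_sub, ← hP, ← hQ]⟩

theorem IsPolyFun.mul {F G : SL3 ℚ → ℚ} (hF : IsPolyFun F) (hG : IsPolyFun G) :
    IsPolyFun (fun g => F g * G g) := by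
  obtain ⟨P, hP⟩ := hF
  obtain ⟨Q, hQ⟩ := hG
  exact ⟨P * Q, fun g => by rw [map_mul, ← hP, ← hQ]⟩

theorem IsPolyFun.sum {ι : Type*} (s : Finset ι) {F : ι → SL3 ℚ → ℚ}
    (hF : ∀ i, IsPolyFun (F i)) : IsPolyFun (fun g => ∑ i ∈ s, F i g) := by
  choose P hP using hF
  exact ⟨∑ i ∈ s, P i, fun g => by rw [map_sum]; exact Finset.sum_congr rfl (fun i _ => hP i g)⟩

theorem IsPolyFun.inv_entry (i j : Fin 3) : IsPolyFun (fun g => (g⁻¹ : SL3 ℚ) i j) := by
  have h : ∀ g : SL3 ℚ, (g⁻¹ : SL3 ℚ) i j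
      = (!![g 1 1 * g 2 2 - g 1 2 * g 2 1, -(g 0 1 * g 2 2) + g 0 2 * g 2 1,
            g 0 1 * g 1 2 - g 0 2 * g 1 1;
          -(g 1 0 * g 2 2) + g 1 2 * g 2 0, g 0 0 * g 2 2 - g 0 2 * g 2 0,
            -(g 0 0 * g 1 2) + g 0 2 * g 1 0;
          g 1 0 * g 2 1 - g 1 1 * g 2 0, -(g 0 0 * g 2 1) + g 0 1 * g 2 0,
            g 0 0 * g 1 1 - g 0 1 * g 1 0] : Matrix (Fin 3) (Fin 3) ℚ) i j := by
    intro g
    rw [Matrix.SpecialLinearGroup.coe_inv, Matrix.adjugate_fin_three]
  have hm : ∀ a b c d e f g' h' : Fin 3,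
      IsPolyFun (fun g => g a b * g c d - g e f * g g' h') := fun a b c d e f g' h' =>
    ((IsPolyFun.entry a b).mul (IsPolyFun.entry c d)).sub
      ((IsPolyFun.entry e f).mul (IsPolyFun.entry g' h'))
  have hm' : ∀ a b c d e f g' h' : Fin 3,
      IsPolyFun (fun g => -(g a b * g c d) + g e f * g g' h') := fun a b c d e f g' h' => by
    have := hm e f g' h' a b c d
    convert! this using 2
    ring
  simp only [h]
  fin_cases i <;> fin_cases j
  · exact hm 1 1 2 2 1 2 2 1
  · exact hm' 0 1 2 2 0 2 2 1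
  · exact hm 0 1 1 2 0 2 1 1
  · exact hm' 1 0 2 2 1 2 2 0
  · exact hm 0 0 2 2 0 2 2 0
  · exact hm' 0 0 1 2 0 2 1 0
  · exact hm 1 0 2 1 1 1 2 0
  · exact hm' 0 0 2 1 0 1 2 0
  · exact hm 0 0 1 1 0 1 1 0

theorem isPolyFun_actFun (T : Fin 3 → M3 ℚ) (l a b : Fin 3) :
    IsPolyFun (fun g => actFun g T l a b) := by
  have h : ∀ g : SL3 ℚ, actFun g T l a b
      = ∑ c, (g⁻¹ : SL3 ℚ) c l * ∑ y, (∑ x, g a x * T c x y) * g b y := by
    intro g
    rw [actFun_apply, Matrix.sum_apply]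
    refine Finset.sum_congr rfl (fun c _ => ?_)
    rw [Matrix.smul_apply, smul_eq_mul, Matrix.mul_apply]
    congr 1
  simp only [h]
  exact IsPolyFun.sum _ fun c => (IsPolyFun.inv_entry c l).mul (IsPolyFun.sum _ fun y =>
    (IsPolyFun.sum _ fun x => (IsPolyFun.entry a x).mul (IsPolyFun.const _)).mul
      (IsPolyFun.entry b y))

theorem polyCoeff_act : PolyCoeff (act ℚ) := by
  intro f T
  obtain ⟨F, hF⟩ := LinearMap.exists_extend f
  have hdec : ∀ Y : Fin 3 → M3 ℚ, F Y = ∑ l, ∑ a, ∑ b,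
      Y l a b * F (Pi.single l (Matrix.single a b 1)) := by
    intro Y
    have h1 : Y = ∑ l, ∑ a, ∑ b, Y l a b • (Pi.single l (Matrix.single a b 1) : Fin 3 → M3 ℚ) := by
      funext l'
      ext a' b'
      simp only [Finset.sum_apply, Matrix.sum_apply, Pi.smul_apply, Matrix.smul_apply,
        smul_eq_mul, Pi.single_apply]
      rw [Finset.sum_eq_single l', Finset.sum_eq_single a', Finset.sum_eq_single b']
      · simp
      · intro b _ hb
        simp [Matrix.single_apply, hb]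
      · simp
      · intro a _ ha
        simp [Matrix.single_apply, ha]
      · simp
      · intro l _ hl
        simp [hl.symm]
      · simp
    conv_lhs => rw [h1]
    simp only [map_sum, map_smul, smul_eq_mul]
  have h2 : ∀ g, f (act ℚ g T) = ∑ l, ∑ a, ∑ b,
      actFun g T.1 l a b * F (Pi.single l (Matrix.single a b 1)) := by
    intro g
    rw [← hF]
    change F (actFun g T.1) = _
    rw [hdec]
  change IsPolyFun (fun g => f (act ℚ g T))
  simp only [h2]
  exact IsPolyFun.sum _ fun l => IsPolyFun.sum _ fun a => IsPolyFun.sum _ fun b =>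
    (isPolyFun_actFun T.1 l a b).mul (IsPolyFun.const _)

/-- `tens ℚ` is an irreducible representation of highest weight `(3,1,0)`, i.e. `(4,2,1)`. -/
theorem act_isIrrep {lam : Fin 3 → ℤ} (h1 : lam 0 - lam 1 = 2) (h2 : lam 1 - lam 2 = 1) :
    IsIrrepOfHighestWeight (act ℚ) lam := by
  refine ⟨Module.finite_of_finrank_pos (by rw [finrank_tens]; norm_num), polyCoeff_act,
    act_irreducible, hwv, ?_, fun b hb => ?_⟩
  · intro h
    have := congrArg (fun T : tens ℚ => T.1 2 0 0) h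
    simp [hwv, wvec] at this
  · rw [upper_char hb h1 h2]
    have hd := upper_det hb
    apply Subtype.ext
    funext l
    ext x y
    change actFun b (wvec ℚ 0 2) l x y = (b 0 0 ^ 3 * b 1 1) * wvec ℚ 0 2 l x y
    rw [actFun_wvec, Matrix.SpecialLinearGroup.coe_inv, Matrix.adjugate_fin_three]
    have e1 := hb 1 0 (by decide)
    have e2 := hb 2 0 (by decide)
    have e3 := hb 2 1 (by decide)
    fin_cases l <;> fin_cases x <;> fin_cases y <;> simp [wvec, e1, e2, e3] <;> ring

end Existence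

end Pool.Agent.SL3
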