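import Pool.Agent.SL3.Module

/-!
# Reduction of `SL_3(ℤ)`-stable lattices

Every `SL_3(ℤ)`-stable lattice in a rational representation isomorphic to `tens ℚ` reduces modulo
`p ≥ 5` to the same module `tens k`.
-/

open Matrix TensorProduct

set_option linter.unusedSimpArgs false
set_option linter.unnecessarySeqFocus false

namespace Pool.Agent.SL3

section Functor

variable (R : Type*) [CommRing R]

/-- Entrywise image of an integral tensor. -/
def castT (T : Fin 3 → M3 ℤ) : Fin 3 → M3 R := fun l => (T l).map (Int.castRingHom R)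

theorem castT_apply (T : Fin 3 → M3 ℤ) (l a b : Fin 3) : castT R T l a b = (T l a b : R) := rfl

theorem castT_mem {T : Fin 3 → M3 ℤ} (hT : T ∈ tens ℤ) : castT R T ∈ tens R := by
  obtain ⟨h1, h2⟩ := hT
  refine ⟨fun l i j => ?_, fun j => ?_⟩
  · rw [castT_apply, castT_apply, h1]
  · simp only [castT_apply]
    rw [← Int.cast_sum, h2, Int.cast_zero]

theorem redSL_coe (g : SL3 ℤ) : (redSL R g : M3 R) = (g : M3 ℤ).map (Int.castRingHom R) := rfl

theorem actFun_castT (g : SL3 ℤ) (T : Fin 3 → M3 ℤ) :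
    actFun (redSL R g) (castT R T) = castT R (actFun g T) := by
  funext l
  ext a b
  have h1 : ∀ c, ((redSL R g)⁻¹ : SL3 R) c l = (((g⁻¹ : SL3 ℤ) c l : ℤ) : R) := by
    intro c
    rw [← map_inv]
    rfl
  rw [castT_apply, actFun_apply, actFun_apply, Matrix.sum_apply, Matrix.sum_apply, Int.cast_sum]
  refine Finset.sum_congr rfl (fun c _ => ?_)
  rw [Matrix.smul_apply, Matrix.smul_apply, h1, smul_eq_mul, smul_eq_mul, Int.cast_mul]
  congr 1
  rw [redSL_coe, castT, ← Matrix.map_mul, ← Matrix.transpose_map, ← Matrix.map_mul]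
  rfl

/-- Entrywise image of an integral tensor. -/
def castZ : tens ℤ →ₗ[ℤ] tens R :=
  AddMonoidHom.toIntLinearMap
    { toFun := fun T => ⟨castT R T.1, castT_mem R T.2⟩
      map_zero' := by
        apply Subtype.ext
        funext l
        ext a b
        simp [castT]
      map_add' := fun S T => by
        apply Subtype.ext
        funext l
        ext a b
        simp [castT] }

theorem castZ_coe (T : tens ℤ) : (castZ R T).1 = castT R T.1 := rfl

theorem castZ_act (g : SL3 ℤ) (T : tens ℤ) : castZ R (act ℤ g T) = actZ R g (castZ R T) := by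
  apply Subtype.ext
  rw [castZ_coe, act_coe, actZ_coe, castZ_coe, actFun_castT]

theorem castZ_injective [CharZero R] : Function.Injective (castZ R) := by
  intro S T h
  apply Subtype.ext
  funext l
  ext a b
  have h1 : (castZ R S).1 l a b = (castZ R T).1 l a b := by rw [h]
  rw [castZ_coe, castZ_coe, castT_apply, castT_apply] at h1
  exact Int.cast_injective h1

theorem mem_range_castZ {y : tens ℚ} (h : ∀ l a b, ∃ m : ℤ, (m : ℚ) = y.1 l a b) :
    y ∈ LinearMap.range (castZ ℚ) := by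
  choose m hm using h
  have hmem : (fun l => Matrix.of (m l)) ∈ tens ℤ := by
    refine ⟨fun l i j => ?_, fun j => ?_⟩
    · have : (m l i j : ℚ) = (m l j i : ℚ) := by rw [hm, hm, y.2.1]
      exact_mod_cast this
    · have : ((∑ l, m l j l : ℤ) : ℚ) = 0 := by
        rw [Int.cast_sum]
        simp only [hm]
        exact y.2.2 j
      exact_mod_cast this
  refine ⟨⟨_, hmem⟩, ?_⟩
  apply Subtype.ext
  funext l
  ext a b
  exact hm l a b

end Functor

section Lattice

variable {V : Type*} [AddCommGroup V] [Module ℚ V] (ρ : Representation ℚ (SL3 ℚ) V)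

variable {ρ}

theorem latAct_coe {L : Submodule ℤ V} (hL : LatStable ρ L) (g : SL3 ℤ) (x : L) :
    (latAct hL g x : V) = ρ (redSL ℚ g) x := rfl

theorem latRep_tmul (k : Type*) [CommRing k] {L : Submodule ℤ V} (hL : LatStable ρ L)
    (g : SL3 ℤ) (c : k) (x : L) : latRep k hL g (c ⊗ₜ[ℤ] x) = c ⊗ₜ[ℤ] (latAct hL g x) := by
  change (latAct hL g).baseChange k (c ⊗ₜ[ℤ] x) = _
  rw [LinearMap.baseChange_tmul]

theorem exists_lift {A B L : Type*} [AddCommGroup A] [AddCommGroup B] [AddCommGroup L]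
    (μ : A →ₗ[ℤ] B) (hμ : Function.Injective μ) (f : L →ₗ[ℤ] B)
    (h : ∀ x, f x ∈ LinearMap.range μ) : ∃ f' : L →ₗ[ℤ] A, ∀ x, μ (f' x) = f x := by
  refine ⟨(LinearEquiv.ofInjective μ hμ).symm.toLinearMap ∘ₗ (f.codRestrict _ h), fun x => ?_⟩
  rw [LinearMap.comp_apply, LinearEquiv.coe_coe]
  have := LinearEquiv.apply_symm_apply (LinearEquiv.ofInjective μ hμ) (f.codRestrict _ h x)
  have h2 := congrArg Subtype.val this
  rw [LinearEquiv.ofInjective_apply] at h2
  rw [h2]
  rfl

theorem exists_int_map (e : V ≃ₗ[ℚ] tens ℚ) (he : ∀ g x, e (ρ g x) = act ℚ g (e x))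
    {L : Submodule ℤ V} (hfg : L.FG) (hL : LatStable ρ L) :
    ∃ f : L →ₗ[ℤ] tens ℤ, (∀ g x, f (latAct hL g x) = act ℤ g (f x)) ∧
      ∃ b : ℤ, b ≠ 0 ∧ ∀ x, castZ ℚ (f x) = b • e x := by
  obtain ⟨S, hS⟩ := hfg
  obtain ⟨b, hb⟩ := IsLocalization.exist_integer_multiples_of_finite (nonZeroDivisors ℤ)
    (fun i : S × (Fin 3 × Fin 3 × Fin 3) => ((e i.1).1 i.2.1 i.2.2.1 i.2.2.2 : ℚ))
  have hb0 : (b : ℤ) ≠ 0 := nonZeroDivisors.ne_zero b.2
  let F : V →ₗ[ℤ] tens ℚ := (b : ℤ) • (e.toLinearMap.restrictScalars ℤ)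
  have hF : ∀ x, F x = (b : ℤ) • e x := fun x => rfl
  have hrange : L ≤ (LinearMap.range (castZ ℚ)).comap F := by
    rw [← hS, Submodule.span_le]
    intro s hs
    rw [SetLike.mem_coe, Submodule.mem_comap, hF]
    apply mem_range_castZ
    intro l x y
    obtain ⟨m, hm⟩ := hb (⟨s, hs⟩, (l, x, y))
    refine ⟨m, ?_⟩
    simp only [eq_intCast] at hm
    rw [hm]
    rfl
  obtain ⟨f, hf⟩ := exists_lift (castZ ℚ) (castZ_injective ℚ) (F ∘ₗ L.subtype)
    (fun x => hrange x.2)
  refine ⟨f, fun g x => ?_, b, hb0, fun x => ?_⟩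
  · apply castZ_injective ℚ
    rw [hf, castZ_act, hf, LinearMap.comp_apply, LinearMap.comp_apply, hF, hF,
      Submodule.subtype_apply, Submodule.subtype_apply, latAct_coe, he, actZ_apply, map_zsmul]
  · rw [hf]
    rfl

/-- Multiplication by `p` on integral tensors. -/
theorem exists_prim_map {L : Submodule ℤ V} (hL : LatStable ρ L) {p : ℕ} (hp : 2 ≤ p) {x₀ : L}
    {l₀ a₀ b₀ : Fin 3} : ∀ n : ℕ, ∀ f : L →ₗ[ℤ] tens ℤ,
    (∀ g x, f (latAct hL g x) = act ℤ g (f x)) → ((f x₀).1 l₀ a₀ b₀).natAbs = n → n ≠ 0 →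
    ∃ f : L →ₗ[ℤ] tens ℤ, (∀ g x, f (latAct hL g x) = act ℤ g (f x)) ∧
      ∃ x l a b, ¬ (p : ℤ) ∣ (f x).1 l a b := by
  intro n
  induction n using Nat.strong_induction_on with
  | _ n ih =>
    intro f hf hn hn0
    by_cases hdiv : ∃ x l a b, ¬ (p : ℤ) ∣ (f x).1 l a b
    · exact ⟨f, hf, hdiv⟩
    · push Not at hdiv
      have hp0 : (p : ℤ) ≠ 0 := by
        have : p ≠ 0 := by omega
        exact_mod_cast this
      let μ : tens ℤ →ₗ[ℤ] tens ℤ := LinearMap.lsmul ℤ (tens ℤ) (p : ℤ)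
      have hμ : ∀ T : tens ℤ, μ T = (p : ℤ) • T := fun T => rfl
      have hinj : Function.Injective μ := by
        intro S T h
        rw [hμ, hμ] at h
        exact smul_right_injective _ hp0 h
      have hr : ∀ x, f x ∈ LinearMap.range μ := by
        intro x
        choose m hm using fun l a b => hdiv x l a b
        have hmem : (fun l => Matrix.of (m l)) ∈ tens ℤ := by
          refine ⟨fun l i j => ?_, fun j => ?_⟩
          · apply mul_left_cancel₀ hp0
            have h1 := hm l i j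
            have h2 := hm l j i
            rw [(f x).2.1] at h1
            rw [h1] at h2
            exact h2
          · apply mul_left_cancel₀ hp0
            rw [mul_zero, Finset.mul_sum, ← (f x).2.2 j]
            exact Finset.sum_congr rfl (fun l _ => (hm l j l).symm)
        refine ⟨⟨_, hmem⟩, ?_⟩
        apply Subtype.ext
        funext l
        ext a b
        exact (hm l a b).symm
      obtain ⟨f', hf'⟩ := exists_lift μ hinj f hr
      have hf'1 : ∀ g x, f' (latAct hL g x) = act ℤ g (f' x) := by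
        intro g x
        apply hinj
        rw [hf', hf, hμ, ← hf', hμ, map_zsmul]
      have h3 : (f x₀).1 l₀ a₀ b₀ = (p : ℤ) * (f' x₀).1 l₀ a₀ b₀ := by
        rw [← hf' x₀]
        rfl
      have h4 : n = p * ((f' x₀).1 l₀ a₀ b₀).natAbs := by
        rw [← hn, h3, Int.natAbs_mul, Int.natAbs_natCast]
      have h5 : ((f' x₀).1 l₀ a₀ b₀).natAbs ≠ 0 := by
        intro h
        rw [h, mul_zero] at h4
        exact hn0 h4
      refine ih _ ?_ f' hf'1 rfl h5
      rw [h4]
      have : 1 ≤ ((f' x₀).1 l₀ a₀ b₀).natAbs := Nat.one_le_iff_ne_zero.mpr h5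
      nlinarith

/-- Every `SL_3(ℤ)`-stable lattice `L` in a rational representation isomorphic to `tens ℚ` reduces
to `tens k`, for every field `k` of characteristic `p ≥ 5`. -/
theorem lattice_reduction (e : V ≃ₗ[ℚ] tens ℚ) (he : ∀ g x, e (ρ g x) = act ℚ g (e x))
    (L : Submodule ℤ V) [Submodule.IsLattice ℚ L] (hL : LatStable ρ L)
    (k : Type*) [Field k] (p : ℕ) [CharP k p] (hp : p.Prime) (hp5 : 5 ≤ p) :
    ∃ φ : (k ⊗[ℤ] L) ≃ₗ[k] tens k, ∀ g x, φ (latRep k hL g x) = actZ k g (φ x) := by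
  have h6 : (6 : k) ≠ 0 := by
    intro h
    have h1 : ((6 : ℕ) : k) = 0 := by exact_mod_cast h
    rw [CharP.cast_eq_zero_iff k p] at h1
    have h2 : p ≤ 6 := Nat.le_of_dvd (by norm_num) h1
    interval_cases p
    · omega
    · revert hp; decide
  obtain ⟨f₀, hf₀, b, hb, hfb⟩ := exists_int_map e he (Submodule.IsLattice.fg (A := ℚ)) hL
  -- a nonzero element of the lattice
  have hne : ∃ x₀ : L, ∃ l a b, (f₀ x₀).1 l a b ≠ 0 := by
    by_contra hcon
    push Not at hcon
    have h1 : ∀ x : L, (x : V) = 0 := by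
      intro x
      have h2 : f₀ x = 0 := by
        apply Subtype.ext
        funext l
        ext a b
        exact hcon x l a b
      have h3 := hfb x
      rw [h2, map_zero, eq_comm, ← Int.cast_smul_eq_zsmul ℚ, smul_eq_zero] at h3
      rcases h3 with h3 | h3
      · exact absurd (Int.cast_eq_zero.mp h3) hb
      · exact (LinearEquiv.map_eq_zero_iff e).mp h3
    have h4 : Submodule.span ℚ (L : Set V) = ⊤ := Submodule.IsLattice.span_eq_top
    have h5 : Submodule.span ℚ (L : Set V) = ⊥ := by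
      rw [Submodule.span_eq_bot]
      intro x hx
      exact h1 ⟨x, hx⟩
    have h6' : Module.finrank ℚ V = 15 := by rw [e.finrank_eq, finrank_tens]
    have h7 : Module.finrank ℚ (⊤ : Submodule ℚ V) = 15 := by rw [finrank_top, h6']
    rw [← h4, h5, finrank_bot] at h7
    omega
  obtain ⟨x₀, l₀, a₀, b₀, h0⟩ := hne
  obtain ⟨f, hf, x₁, l₁, a₁, b₁, h1⟩ := exists_prim_map (x₀ := x₀) (l₀ := l₀) (a₀ := a₀)
    (b₀ := b₀) hL (le_trans (by norm_num) hp5) _ f₀ hf₀ rfl (Int.natAbs_ne_zero.mpr h0)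
  -- the reduction map
  let F : L →ₗ[ℤ] tens k := castZ k ∘ₗ f
  have hF : ∀ g x, F (latAct hL g x) = actZ k g (F x) := by
    intro g x
    change castZ k (f (latAct hL g x)) = actZ k g (castZ k (f x))
    rw [hf, castZ_act]
  let φ : (k ⊗[ℤ] L) →ₗ[k] tens k := F.liftBaseChange k
  have hφ : ∀ c x, φ (c ⊗ₜ[ℤ] x) = c • F x := fun c x => rfl
  have hequi : ∀ g x, φ (latRep k hL g x) = actZ k g (φ x) := by
    intro g x
    induction x using TensorProduct.induction_on with
    | zero => simp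
    | tmul c x => rw [latRep_tmul, hφ, hφ, hF, map_smul]
    | add x y hx hy => rw [map_add, map_add, map_add, map_add, hx, hy]
  -- surjectivity, from irreducibility
  have hsurj : Function.Surjective φ := by
    let N : Submodule k (Fin 3 → M3 k) := (LinearMap.range φ).map (tens k).subtype
    have hN : StableZ N := by
      rintro g _ ⟨y, ⟨x, rfl⟩, rfl⟩
      exact ⟨φ (latRep k hL g x), ⟨_, rfl⟩, by rw [hequi]; rfl⟩
    have hle : N ≤ tens k := by
      rintro _ ⟨y, _, rfl⟩
      exact y.2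
    have hNne : N ≠ ⊥ := by
      intro h
      have h2 : (F x₁).1 ∈ N := ⟨F x₁, ⟨1 ⊗ₜ[ℤ] x₁, by rw [hφ, one_smul]⟩, rfl⟩
      rw [h, Submodule.mem_bot] at h2
      have h3 : (F x₁).1 l₁ a₁ b₁ = 0 := by rw [h2]; rfl
      have h4 : (((f x₁).1 l₁ a₁ b₁ : ℤ) : k) = 0 := h3
      rw [CharP.intCast_eq_zero_iff k p] at h4
      exact h1 h4
    have hall := eq_tens h6 hN hle hNne
    intro y
    have h2 : y.1 ∈ N := by rw [hall]; exact y.2
    obtain ⟨z, ⟨x, rfl⟩, hz⟩ := h2
    exact ⟨x, Subtype.ext hz⟩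
  have hfinV : Module.finrank ℚ V = 15 := by rw [e.finrank_eq, finrank_tens]
  have hfinL : Module.finrank ℤ L = 15 := by
    rw [← hfinV]
    exact congrArg Cardinal.toNat (Submodule.IsLattice.rank' ℚ L)
  have hfink : Module.finrank k (k ⊗[ℤ] L) = Module.finrank k (tens k) := by
    rw [Module.finrank_baseChange, hfinL, finrank_tens]
  have hfd : FiniteDimensional k (tens k) :=
    Module.finite_of_finrank_pos (by rw [finrank_tens]; norm_num)
  have hfd2 : FiniteDimensional k (k ⊗[ℤ] L) :=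
    Module.finite_of_finrank_pos (by rw [hfink, finrank_tens]; norm_num)
  have hinj : Function.Injective φ :=
    (LinearMap.injective_iff_surjective_of_finrank_eq_finrank hfink).mpr hsurj
  exact ⟨LinearEquiv.ofBijective φ ⟨hinj, hsurj⟩, hequi⟩

end Lattice

end Pool.Agent.SL3
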