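import Pool.Agent.SL3.Defs

/-!
# The 15-dimensional representation of `SL_3` of highest weight `(3,1,0)`

`tens R` is the kernel of the contraction `Sym²(R³) ⊗ (R³)^* → R³`: its elements are families
`T = (T 0, T 1, T 2)` of symmetric matrices (meaning `∑ₗ T l ⊗ eₗ^*`) with `∑ₗ T l j l = 0` for
all `j`.
-/

open Matrix

namespace Pool.Agent.SL3

section Defs

/-- `3 × 3` matrices. -/
abbrev M3 (R : Type*) : Type _ := Matrix (Fin 3) (Fin 3) R

variable (R : Type*) [CommRing R]

/-- Traceless elements of `Sym²(R³) ⊗ (R³)^*`. -/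
def tens : Submodule R (Fin 3 → M3 R) where
  carrier := {T | (∀ l i j, T l i j = T l j i) ∧ ∀ j, ∑ l, T l j l = 0}
  add_mem' := by
    rintro S T ⟨h1, h2⟩ ⟨h3, h4⟩
    refine ⟨fun l i j => ?_, fun j => ?_⟩
    · simp only [Pi.add_apply, Matrix.add_apply, h1 l i j, h3 l i j]
    · simp only [Pi.add_apply, Matrix.add_apply, Finset.sum_add_distrib, h2 j, h4 j, add_zero]
  zero_mem' := by
    refine ⟨fun l i j => rfl, fun j => ?_⟩
    simp
  smul_mem' := by
    rintro c T ⟨h1, h2⟩
    refine ⟨fun l i j => ?_, fun j => ?_⟩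
    · simp only [Pi.smul_apply, Matrix.smul_apply, h1 l i j]
    · simp only [Pi.smul_apply, Matrix.smul_apply, ← Finset.smul_sum, h2 j, smul_zero]

variable {R}

theorem mem_tens {T : Fin 3 → M3 R} :
    T ∈ tens R ↔ (∀ l i j, T l i j = T l j i) ∧ ∀ j, ∑ l, T l j l = 0 := Iff.rfl

/-- The action of `g ∈ SL_3(R)` on `(R³ ⊗ R³) ⊗ (R³)^*`. -/
def actFun (g : SL3 R) : (Fin 3 → M3 R) →ₗ[R] (Fin 3 → M3 R) where
  toFun T l := ∑ c, (g⁻¹ : SL3 R) c l • ((g : M3 R) * T c * (g : M3 R)ᵀ)
  map_add' S T := by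
    ext1 l
    simp only [Pi.add_apply, mul_add, add_mul, smul_add, Finset.sum_add_distrib]
  map_smul' a T := by
    ext1 l
    simp only [Pi.smul_apply, Matrix.mul_smul, Matrix.smul_mul, RingHom.id_apply,
      Finset.smul_sum]
    refine Finset.sum_congr rfl (fun c _ => ?_)
    rw [smul_comm]

theorem actFun_apply (g : SL3 R) (T : Fin 3 → M3 R) (l : Fin 3) :
    actFun g T l = ∑ c, (g⁻¹ : SL3 R) c l • ((g : M3 R) * T c * (g : M3 R)ᵀ) := rfl

theorem actFun_one : actFun (1 : SL3 R) = LinearMap.id := by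
  refine LinearMap.ext (fun T => funext (fun l => ?_))
  rw [actFun_apply, inv_one, Matrix.SpecialLinearGroup.coe_one, Matrix.transpose_one,
    Finset.sum_eq_single l]
  · simp
  · intro b _ hb
    rw [Matrix.one_apply_ne hb, zero_smul]
  · intro h
    exact absurd (Finset.mem_univ _) h

theorem actFun_mul (g h : SL3 R) : actFun (g * h) = actFun g ∘ₗ actFun h := by
  refine LinearMap.ext (fun T => funext (fun l => ?_))
  have h1 : ∀ c, (((g * h)⁻¹ : SL3 R) : M3 R) c l
      = ∑ d, (h⁻¹ : SL3 R) c d * (g⁻¹ : SL3 R) d l := by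
    intro c
    rw [_root_.mul_inv_rev, Matrix.SpecialLinearGroup.coe_mul, Matrix.mul_apply]
  rw [LinearMap.comp_apply, actFun_apply, actFun_apply]
  simp only [h1, actFun_apply, Finset.sum_smul, Finset.mul_sum, Finset.sum_mul,
    Finset.smul_sum]
  rw [Finset.sum_comm]
  refine Finset.sum_congr rfl (fun d _ => Finset.sum_congr rfl (fun c _ => ?_))
  rw [Matrix.mul_smul, Matrix.smul_mul, smul_smul, mul_comm ((h⁻¹ : SL3 R) c d),
    Matrix.SpecialLinearGroup.coe_mul, Matrix.transpose_mul]
  simp only [Matrix.mul_assoc]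

theorem actFun_mem (g : SL3 R) {T : Fin 3 → M3 R} (hT : T ∈ tens R) :
    actFun g T ∈ tens R := by
  obtain ⟨h1, h2⟩ := hT
  have hsym : ∀ l, (T l)ᵀ = T l := fun l => by
    ext i j
    exact h1 l j i
  refine ⟨fun l i j => ?_, fun j => ?_⟩
  · have : (actFun g T l)ᵀ = actFun g T l := by
      rw [actFun_apply, Matrix.transpose_sum]
      refine Finset.sum_congr rfl (fun c _ => ?_)
      rw [Matrix.transpose_smul, Matrix.transpose_mul, Matrix.transpose_mul,
        Matrix.transpose_transpose, hsym, Matrix.mul_assoc]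
    rw [← Matrix.transpose_apply (actFun g T l) j i, this]
  · have key : ∀ c, ∑ l, ((g⁻¹ : SL3 R) c l • ((g : M3 R) * T c * (g : M3 R)ᵀ)) j l
        = ((g : M3 R) * T c) j c := by
      intro c
      have h3 : (g : M3 R)ᵀ * ((g⁻¹ : SL3 R) : M3 R)ᵀ = 1 := by
        rw [← Matrix.transpose_mul, ← Matrix.SpecialLinearGroup.coe_mul, inv_mul_cancel,
          Matrix.SpecialLinearGroup.coe_one, Matrix.transpose_one]
      have h4 : ((g : M3 R) * T c * (g : M3 R)ᵀ * ((g⁻¹ : SL3 R) : M3 R)ᵀ) j c
          = ((g : M3 R) * T c) j c := by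
        rw [Matrix.mul_assoc, h3, Matrix.mul_one]
      rw [← h4, Matrix.mul_apply]
      refine Finset.sum_congr rfl (fun l _ => ?_)
      rw [Matrix.smul_apply, Matrix.transpose_apply, smul_eq_mul, mul_comm]
    have h5 : ∑ l, (actFun g T l) j l = ∑ c, ((g : M3 R) * T c) j c := by
      simp only [actFun_apply, Matrix.sum_apply]
      rw [Finset.sum_comm]
      exact Finset.sum_congr rfl (fun c _ => key c)
    rw [h5]
    simp only [Matrix.mul_apply]
    rw [Finset.sum_comm]
    refine Finset.sum_eq_zero (fun a _ => ?_)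
    rw [← Finset.mul_sum, h2 a, mul_zero]

variable (R) in
/-- The representation of `SL_3(R)` on `tens R`. -/
def act : Representation R (SL3 R) (tens R) where
  toFun g := (actFun g).restrict (fun _ hT => actFun_mem g hT)
  map_one' := by
    ext1 T
    apply Subtype.ext
    rw [LinearMap.coe_restrict_apply, actFun_one]
    rfl
  map_mul' g h := by
    ext1 T
    apply Subtype.ext
    rw [LinearMap.coe_restrict_apply, actFun_mul]
    rfl

theorem act_coe (g : SL3 R) (T : tens R) :
    (act R g T : Fin 3 → M3 R) = actFun g T.1 := rfl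

theorem act_apply (g : SL3 R) (T : tens R) (l : Fin 3) :
    (act R g T).1 l = ∑ c, (g⁻¹ : SL3 R) c l • ((g : M3 R) * T.1 c * (g : M3 R)ᵀ) := rfl

variable (R) in
/-- The representation of `SL_3(ℤ)` on `tens R`. -/
def actZ : Representation R (SL3 ℤ) (tens R) := (act R).comp (redSL R)

theorem actZ_apply (g : SL3 ℤ) : actZ R g = act R (redSL R g) := rfl

theorem actZ_coe (g : SL3 ℤ) (T : tens R) :
    (actZ R g T : Fin 3 → M3 R) = actFun (redSL R g) T.1 := rfl

end Defs

set_option linter.unusedSimpArgs false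

set_option linter.unnecessarySeqFocus false

section Elementary

variable {R : Type*} [CommRing R]

/-- The elementary matrix `1 + c E_{ij}`. -/
def elem (i j : Fin 3) (h : i ≠ j) (c : R) : SL3 R :=
  ⟨Matrix.transvection i j c, Matrix.det_transvection_of_ne i j h c⟩

theorem elem_coe (i j : Fin 3) (h : i ≠ j) (c : R) :
    (elem i j h c : M3 R) = Matrix.transvection i j c := rfl

theorem elem_inv (i j : Fin 3) (h : i ≠ j) (c : R) : (elem i j h c)⁻¹ = elem i j h (-c) := by
  rw [inv_eq_iff_mul_eq_one]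
  apply Subtype.ext
  rw [Matrix.SpecialLinearGroup.coe_mul, elem_coe, elem_coe, Matrix.transvection_mul_transvection_same _ _ h,
    add_neg_cancel, Matrix.transvection_zero, Matrix.SpecialLinearGroup.coe_one]

theorem redSL_elem (i j : Fin 3) (h : i ≠ j) (c : ℤ) :
    redSL R (elem i j h c) = elem i j h (c : R) := by
  apply Subtype.ext
  ext a b
  change ((Matrix.transvection i j c a b : ℤ) : R) = Matrix.transvection i j (c : R) a b
  simp only [Matrix.transvection, Matrix.add_apply, Matrix.one_apply, Matrix.single_apply]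
  split_ifs <;> push_cast <;> simp

theorem transvection_apply (i j : Fin 3) (c : R) (a b : Fin 3) :
    Matrix.transvection i j c a b = (if a = b then 1 else 0) + (if i = a ∧ j = b then c else 0) := by
  simp only [Matrix.transvection, Matrix.add_apply, Matrix.one_apply, Matrix.single_apply]

/-- `(1 + c E_{ij}) X (1 + c E_{ij})ᵀ`, entrywise. -/
theorem elem_conj (i j : Fin 3) (h : i ≠ j) (c : R) (X : M3 R) (a b : Fin 3) :
    ((elem i j h c : M3 R) * X * (elem i j h c : M3 R)ᵀ) a b
      = X a b + (if a = i then c * X j b else 0) + (if b = i then c * X a j else 0)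
        + (if a = i ∧ b = i then c ^ 2 * X j j else 0) := by
  rw [elem_coe]
  have h1 : ∀ Y : M3 R, ∀ u v, (Matrix.transvection i j c * Y) u v
      = Y u v + (if u = i then c * Y j v else 0) := by
    intro Y u v
    by_cases hu : u = i
    · subst hu
      rw [Matrix.transvection_mul_apply_same, if_pos rfl]
    · rw [Matrix.transvection_mul_apply_of_ne _ _ _ _ hu, if_neg hu, add_zero]
  have h2 : ∀ Y : M3 R, ∀ u v, (Y * (Matrix.transvection i j c)ᵀ) u v
      = Y u v + (if v = i then c * Y u j else 0) := by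
    intro Y u v
    rw [← Matrix.transpose_transpose Y, ← Matrix.transpose_mul, Matrix.transpose_apply, h1]
    simp only [Matrix.transpose_apply]
  rw [h2, h1, h1]
  by_cases ha : a = i <;> by_cases hb : b = i <;> simp [ha, hb] <;> ring

/-- The action of `1 + c E_{ij}`, entrywise. -/
theorem actFun_elem (i j : Fin 3) (h : i ≠ j) (c : R) (T : Fin 3 → M3 R) (l a b : Fin 3) :
    actFun (elem i j h c) T l a b
      = (T l a b + (if a = i then c * T l j b else 0) + (if b = i then c * T l a j else 0)
          + (if a = i ∧ b = i then c ^ 2 * T l j j else 0))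
        - (if l = j then c * (T i a b + (if a = i then c * T i j b else 0)
          + (if b = i then c * T i a j else 0)
          + (if a = i ∧ b = i then c ^ 2 * T i j j else 0)) else 0) := by
  rw [actFun_apply, elem_inv, Matrix.sum_apply]
  simp only [Matrix.smul_apply, elem_conj, smul_eq_mul]
  simp only [elem_coe, transvection_apply, add_mul,
    Finset.sum_add_distrib, ite_mul, one_mul, zero_mul]
  rw [Finset.sum_ite_eq' Finset.univ l]
  by_cases hl : l = j
  · subst hl
    simp only [Finset.mem_univ, if_true, and_true, Finset.sum_ite_eq]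
    ring
  · have : ∀ x, ¬ (i = x ∧ j = l) := fun x hx => hl hx.2.symm
    simp [this, hl]

/-- The action of the Lie algebra element `E_{ij}`. -/
def lie (i j : Fin 3) (T : Fin 3 → M3 R) : Fin 3 → M3 R := fun l a b =>
  (if a = i then T l j b else 0) + (if b = i then T l a j else 0) - (if l = j then T i a b else 0)

/-- The tensor `e_i² ⊗ e_j^*`. -/
def wvec (R : Type*) [CommRing R] (i j : Fin 3) : Fin 3 → M3 R := fun l a b =>
  if l = j ∧ a = i ∧ b = i then 1 else 0

theorem six_lie (i j : Fin 3) (h : i ≠ j) (T : Fin 3 → M3 R) :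
    (6 : R) • lie i j T = (6 : R) • (actFun (elem i j h 1) T - T)
      - (2 : R) • (actFun (elem i j h (-1)) T - T) - (actFun (elem i j h 2) T - T) := by
  funext l
  ext a b
  simp only [Pi.smul_apply, Pi.sub_apply, Matrix.smul_apply, Matrix.sub_apply, actFun_elem, lie,
    smul_eq_mul]
  by_cases ha : a = i <;> by_cases hb : b = i <;> by_cases hl : l = j <;>
    simp only [ha, hb, hl, if_true, if_false, and_self, and_true, true_and, and_false,
      false_and] <;> ring

theorem six_cube (i j : Fin 3) (h : i ≠ j) (T : Fin 3 → M3 R) :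
    (-6 * T i j j) • wvec R i j = (actFun (elem i j h 2) T - T)
      - (3 : R) • (actFun (elem i j h 1) T - T) - (actFun (elem i j h (-1)) T - T) := by
  funext l
  ext a b
  simp only [Pi.smul_apply, Pi.sub_apply, Matrix.smul_apply, Matrix.sub_apply, actFun_elem, wvec,
    smul_eq_mul]
  by_cases ha : a = i <;> by_cases hb : b = i <;> by_cases hl : l = j <;>
    simp only [ha, hb, hl, if_true, if_false, and_self, and_true, true_and, and_false,
      false_and] <;> ring

end Elementary

section Irreducible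

variable {k : Type*} [Field k]

/-- Stability under `SL_3(ℤ)`. -/
def StableZ (N : Submodule k (Fin 3 → M3 k)) : Prop :=
  ∀ g : SL3 ℤ, ∀ T ∈ N, actFun (redSL k g) T ∈ N

variable {N : Submodule k (Fin 3 → M3 k)}

theorem StableZ.elem (hN : StableZ N) (i j : Fin 3) (h : i ≠ j) (c : ℤ) {T} (hT : T ∈ N) :
    actFun (elem i j h (c : k)) T ∈ N := by
  rw [← redSL_elem]
  exact hN _ T hT

theorem StableZ.lie (h6 : (6 : k) ≠ 0) (hN : StableZ N) (i j : Fin 3) (h : i ≠ j) {T}
    (hT : T ∈ N) : lie i j T ∈ N := by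
  have h1 : (6 : k) • SL3.lie i j T ∈ N := by
    rw [six_lie i j h]
    have e1 := hN.elem i j h 1 hT
    have e2 := hN.elem i j h (-1) hT
    have e3 := hN.elem i j h 2 hT
    push_cast at e1 e2 e3
    exact N.sub_mem (N.sub_mem (N.smul_mem _ (N.sub_mem e1 hT)) (N.smul_mem _ (N.sub_mem e2 hT)))
      (N.sub_mem e3 hT)
  exact (N.smul_mem_iff h6).mp h1

theorem StableZ.wvec (h6 : (6 : k) ≠ 0) (hN : StableZ N) {i j : Fin 3} (h : i ≠ j) {T}
    (hT : T ∈ N) (h0 : T i j j ≠ 0) : wvec k i j ∈ N := by
  have h1 : (-6 * T i j j) • SL3.wvec k i j ∈ N := by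
    rw [six_cube i j h]
    have e1 := hN.elem i j h 1 hT
    have e2 := hN.elem i j h (-1) hT
    have e3 := hN.elem i j h 2 hT
    push_cast at e1 e2 e3
    exact N.sub_mem (N.sub_mem (N.sub_mem e3 hT) (N.smul_mem _ (N.sub_mem e1 hT)))
      (N.sub_mem e2 hT)
  exact (N.smul_mem_iff (mul_ne_zero (neg_ne_zero.mpr h6) h0)).mp h1

theorem exists_corner (h6 : (6 : k) ≠ 0) (hN : StableZ N) (hle : N ≤ tens k) (hne : N ≠ ⊥) :
    ∃ i j : Fin 3, i ≠ j ∧ ∃ T ∈ N, T i j j ≠ 0 := by
  by_contra hcon
  push Not at hcon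
  apply hne
  rw [Submodule.eq_bot_iff]
  intro T hT
  have h2 : (2 : k) ≠ 0 := by
    intro h
    apply h6
    rw [show (6 : k) = 2 * 3 by norm_num, h, zero_mul]
  obtain ⟨hs, hc⟩ := hle hT
  have h1 : ∀ i b j, i ≠ j → b ≠ j → T i b j + T i j b - (if i = b then T j j j else 0) = 0 := by
    intro i b j hij hbj
    have := hcon i j hij _ (hN.lie h6 j b hbj.symm hT)
    simpa [lie] using this
  have ht : ∀ j, T j j j = 0 := by
    have h4 : (4 : k) ≠ 0 := by
      rw [show (4 : k) = 2 * 2 by norm_num]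
      exact mul_ne_zero h2 h2
    intro j
    apply mul_left_cancel₀ h4
    rw [mul_zero]
    have hcj := hc j
    rw [Fin.sum_univ_three] at hcj
    fin_cases j
    · have e1 := h1 1 1 0 (by decide) (by decide)
      have e2 := h1 2 2 0 (by decide) (by decide)
      have s1 := hs 1 1 0
      have s2 := hs 2 2 0
      simp only [if_true] at e1 e2
      simp only [Fin.mk_zero, Fin.zero_eta, Fin.isValue] at hcj ⊢
      linear_combination 2 * hcj - e1 - e2 + s1 + s2
    · have e1 := h1 0 0 1 (by decide) (by decide)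
      have e2 := h1 2 2 1 (by decide) (by decide)
      have s1 := hs 0 0 1
      have s2 := hs 2 2 1
      simp only [if_true] at e1 e2
      simp only [Fin.mk_one, Fin.isValue] at hcj ⊢
      linear_combination 2 * hcj - e1 - e2 + s1 + s2
    · have e1 := h1 0 0 2 (by decide) (by decide)
      have e2 := h1 1 1 2 (by decide) (by decide)
      have s1 := hs 0 0 2
      have s2 := hs 1 1 2
      simp only [if_true] at e1 e2
      simp only [Fin.reduceFinMk, Fin.isValue] at hcj ⊢
      linear_combination 2 * hcj - e1 - e2 + s1 + s2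
  have hoff : ∀ l a b, a ≠ b → l ≠ b → T l a b = 0 := by
    intro l a b hab hlb
    have e := h1 l a b hlb hab
    rw [hs l b a, ht b] at e
    simp only [ite_self, sub_zero] at e
    have : (2 : k) * T l a b = 0 := by rw [two_mul]; exact e
    exact (mul_eq_zero.mp this).resolve_left h2
  funext l
  ext a b
  rw [Pi.zero_apply, Matrix.zero_apply]
  by_cases hab : a = b
  · subst hab
    by_cases hla : l = a
    · subst hla
      exact ht l
    · exact hcon l a hla T hT
  · by_cases hlb : l = b
    · subst hlb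
      rw [hs l a l]
      exact hoff l l a (Ne.symm hab) (Ne.symm hab)
    · exact hoff l a b hab hlb

/-- The tensor `(e_a e_b + e_b e_a) ⊗ e_j^*` (for `a ≠ b`). -/
def svec (R : Type*) [CommRing R] (a b j : Fin 3) : Fin 3 → M3 R := fun l x y =>
  if l = j ∧ ((x = a ∧ y = b) ∨ (x = b ∧ y = a)) then 1 else 0

theorem lie_w_s (a i j : Fin 3) (h1 : a ≠ i) (h2 : a ≠ j) :
    lie a i (wvec k i j) = svec k a i j := by
  funext l
  ext x y
  simp only [lie, wvec, svec]
  fin_cases a <;> fin_cases i <;> (try exact absurd rfl h1) <;> fin_cases j <;>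
    (try exact absurd rfl h2) <;> fin_cases l <;> fin_cases x <;> fin_cases y <;> simp

theorem lie_s_w (a i j : Fin 3) (h1 : a ≠ i) (h2 : a ≠ j) :
    lie a i (svec k a i j) = (2 : k) • wvec k a j := by
  funext l
  ext x y
  simp only [lie, wvec, svec, Pi.smul_apply, Matrix.smul_apply]
  fin_cases a <;> fin_cases i <;> (try exact absurd rfl h1) <;> fin_cases j <;>
    (try exact absurd rfl h2) <;> fin_cases l <;> fin_cases x <;> fin_cases y <;> simp <;> norm_num

theorem lie_w_w (i j b : Fin 3) (h1 : b ≠ i) (h2 : b ≠ j) :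
    lie j b (wvec k i j) = - wvec k i b := by
  funext l
  ext x y
  simp only [lie, wvec, Pi.neg_apply, Matrix.neg_apply]
  fin_cases b <;> fin_cases i <;> (try exact absurd rfl h1) <;> fin_cases j <;>
    (try exact absurd rfl h2) <;> fin_cases l <;> fin_cases x <;> fin_cases y <;> simp

theorem lie_w_v (i j : Fin 3) (h : i ≠ j) :
    lie j i (wvec k i j) = svec k i j j - wvec k i i := by
  funext l
  ext x y
  simp only [lie, wvec, svec, Pi.sub_apply, Matrix.sub_apply]
  fin_cases i <;> fin_cases j <;> (try exact absurd rfl h) <;>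
    fin_cases l <;> fin_cases x <;> fin_cases y <;> simp

theorem hexagon {P : Fin 3 → Fin 3 → Prop}
    (h1 : ∀ i j a, i ≠ j → a ≠ i → a ≠ j → P i j → P a j)
    (h2 : ∀ i j b, i ≠ j → b ≠ i → b ≠ j → P i j → P i b)
    {i j : Fin 3} (hij : i ≠ j) (h : P i j) : ∀ a b, a ≠ b → P a b := by
  have s1 : P 0 2 → P 1 2 := h1 0 2 1 (by decide) (by decide) (by decide)
  have s2 : P 1 2 → P 1 0 := h2 1 2 0 (by decide) (by decide) (by decide)
  have s3 : P 1 0 → P 2 0 := h1 1 0 2 (by decide) (by decide) (by decide)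
  have s4 : P 2 0 → P 2 1 := h2 2 0 1 (by decide) (by decide) (by decide)
  have s5 : P 2 1 → P 0 1 := h1 2 1 0 (by decide) (by decide) (by decide)
  have s6 : P 0 1 → P 0 2 := h2 0 1 2 (by decide) (by decide) (by decide)
  have h02 : P 0 2 := by
    fin_cases i <;> fin_cases j <;> (try exact absurd rfl hij)
    · exact s6 h
    · exact h
    · exact s6 (s5 (s4 (s3 h)))
    · exact s6 (s5 (s4 (s3 (s2 h))))
    · exact s6 (s5 (s4 h))
    · exact s6 (s5 h)
  intro a b hab
  fin_cases a <;> fin_cases b <;> (try exact absurd rfl hab)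
  · exact s5 (s4 (s3 (s2 (s1 h02))))
  · exact h02
  · exact s2 (s1 h02)
  · exact s1 h02
  · exact s3 (s2 (s1 h02))
  · exact s4 (s3 (s2 (s1 h02)))

theorem decomp {T : Fin 3 → M3 k} (hT : T ∈ tens k) :
    T = ∑ l : Fin 3, (T l (l + 1) (l + 1) • wvec k (l + 1) l + T l (l + 2) (l + 2) • wvec k (l + 2) l
      + T l (l + 1) (l + 2) • svec k (l + 1) (l + 2) l
      + T l (l + 1) l • (svec k (l + 1) l l - wvec k (l + 1) (l + 1))
      + T l (l + 2) l • (svec k (l + 2) l l - wvec k (l + 2) (l + 2))) := by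
  obtain ⟨hs, hc⟩ := hT
  have c0 := hc 0
  have c1 := hc 1
  have c2 := hc 2
  rw [Fin.sum_univ_three] at c0 c1 c2
  funext m
  ext x y
  simp only [Finset.sum_apply, Matrix.sum_apply, Fin.sum_univ_three, Pi.add_apply, Pi.smul_apply,
    Matrix.add_apply, Matrix.smul_apply, Pi.sub_apply, Matrix.sub_apply, wvec, svec, smul_eq_mul]
  fin_cases m <;> fin_cases x <;> fin_cases y <;> simp <;>
    first | exact hs _ _ _ | linear_combination c0 | linear_combination c1 | linear_combination c2

/-- The 15-dimensional module is irreducible under `SL_3(ℤ)` when `6` is invertible. -/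
theorem eq_tens (h6 : (6 : k) ≠ 0) (hN : StableZ N) (hle : N ≤ tens k) (hne : N ≠ ⊥) :
    N = tens k := by
  have h2 : (2 : k) ≠ 0 := by
    intro h
    apply h6
    rw [show (6 : k) = 2 * 3 by norm_num, h, zero_mul]
  obtain ⟨i, j, hij, T₀, hT₀, hne₀⟩ := exists_corner h6 hN hle hne
  have hw₀ : wvec k i j ∈ N := hN.wvec h6 hij hT₀ hne₀
  have hs : ∀ i j a, i ≠ j → a ≠ i → a ≠ j → wvec k i j ∈ N → svec k a i j ∈ N := by
    intro i j a _ h1 h2 h
    rw [← lie_w_s a i j h1 h2]
    exact hN.lie h6 a i h1 h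
  have hw : ∀ a b, a ≠ b → wvec k a b ∈ N := by
    refine hexagon (P := fun a b => wvec k a b ∈ N) ?_ ?_ hij hw₀
    · intro i j a h0 h1 h2' h
      have := hN.lie h6 a i h1 (hs i j a h0 h1 h2' h)
      rw [lie_s_w a i j h1 h2'] at this
      exact (N.smul_mem_iff h2).mp this
    · intro i j b h0 h1 h2' h
      have := hN.lie h6 j b h2'.symm h
      rw [lie_w_w i j b h1 h2', neg_mem_iff] at this
      exact this
  have hv : ∀ i j, i ≠ j → svec k i j j - wvec k i i ∈ N := by
    intro i j h
    rw [← lie_w_v i j h]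
    exact hN.lie h6 j i h.symm (hw i j h)
  refine le_antisymm hle (fun T hT => ?_)
  rw [decomp hT]
  refine N.sum_mem (fun l _ => ?_)
  have d1 : l + 1 ≠ l := by revert l; decide
  have d2 : l + 2 ≠ l := by revert l; decide
  have d3 : l + 1 ≠ l + 2 := by revert l; decide
  refine N.add_mem (N.add_mem (N.add_mem (N.add_mem ?_ ?_) ?_) ?_) ?_
  · exact N.smul_mem _ (hw _ _ d1)
  · exact N.smul_mem _ (hw _ _ d2)
  · exact N.smul_mem _ (hs _ _ _ d2 d3 d1 (hw _ _ d2))
  · exact N.smul_mem _ (hv _ _ d1)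
  · exact N.smul_mem _ (hv _ _ d2)

end Irreducible

section Coordinates

variable (R : Type*) [CommRing R]

/-- The tensor with given coordinates. -/
def ofCoord (c : Fin 3 → Fin 5 → R) : Fin 3 → M3 R := fun l a b =>
  if a = l + 1 ∧ b = l + 1 then c l 0 else
  if a = l + 2 ∧ b = l + 2 then c l 1 else
  if (a = l + 1 ∧ b = l + 2) ∨ (a = l + 2 ∧ b = l + 1) then c l 2 else
  if (a = l + 1 ∧ b = l) ∨ (a = l ∧ b = l + 1) then c l 3 else
  if (a = l + 2 ∧ b = l) ∨ (a = l ∧ b = l + 2) then c l 4 else
  - (c (l + 1) 4 + c (l + 2) 3)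

theorem ofCoord_mem (c : Fin 3 → Fin 5 → R) : ofCoord R c ∈ tens R := by
  refine ⟨fun l i j => ?_, fun j => ?_⟩
  · simp only [ofCoord]
    fin_cases l <;> fin_cases i <;> fin_cases j <;> rfl
  · rw [Fin.sum_univ_three]
    simp only [ofCoord]
    fin_cases j <;> simp

/-- `tens R` is free of rank 15. -/
def coordEquiv : tens R ≃ₗ[R] (Fin 3 → Fin 5 → R) where
  toFun T l := ![T.1 l (l + 1) (l + 1), T.1 l (l + 2) (l + 2), T.1 l (l + 1) (l + 2),
    T.1 l (l + 1) l, T.1 l (l + 2) l]
  map_add' S T := by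
    funext l m
    fin_cases m <;> rfl
  map_smul' c T := by
    funext l m
    fin_cases m <;> rfl
  invFun c := ⟨ofCoord R c, ofCoord_mem R c⟩
  left_inv := by
    rintro ⟨T, hs, hc⟩
    apply Subtype.ext
    funext l
    ext a b
    have c0 := hc 0
    have c1 := hc 1
    have c2 := hc 2
    rw [Fin.sum_univ_three] at c0 c1 c2
    simp only [ofCoord]
    fin_cases l <;> fin_cases a <;> fin_cases b <;> simp <;>
      first | exact hs _ _ _ | linear_combination -c0 | linear_combination -c1 |
        linear_combination -c2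
  right_inv := by
    intro c
    funext l m
    simp only [ofCoord]
    fin_cases l <;> fin_cases m <;> simp

theorem finrank_tens [Nontrivial R] : Module.finrank R (tens R) = 15 := by
  rw [(coordEquiv R).finrank_eq, Module.finrank_pi_fintype]
  simp

end Coordinates

end Pool.Agent.SL3
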